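import Pool.Agent.H362P.Base

/-!
Connection probabilities of finite sets above the critical point: adding a point.
-/

set_option autoImplicit false

namespace Pool.Agent.U167.GE

open Finset H974 H362P Pool.Agent.H160R2.CV
open Pool.Agent.H160R2.CV.Quad (LocE IncA bo LA LA_inc LA_loc LA_of_reach bo_disj)

theorem qr_le_loc {q : ℝ} (ok : Ok (fun _ : Edg => q)) (S T : Finset Edg)
    {A : Finset Edg → Prop} (hA : IncA A) (hT : LocE T A) :
    Pr (fun _ => q) S A ≤ Pr (fun _ => q) T A := by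
  have s2 : Pr (fun _ => q) S A ≤ Pr (fun _ => q) (S ∪ T) A :=
    Pr_mono_set ok Finset.subset_union_left (fun F G h _ => hA F G h)
  have s3 : Pr (fun _ => q) (S ∪ T) A = Pr (fun _ => q) T A :=
    Pr_local Finset.subset_union_right (fun F _ => hT F)
  linarith

/-- two increasing events on disjoint sets of edges -/
theorem indepq {q : ℝ} (ok : Ok (fun _ : Edg => q)) (S S1 S2 : Finset Edg) (hd : Disjoint S1 S2)
    {A B : Finset Edg → Prop} (hA : IncA A) (hB : IncA B) (hA' : LocE S1 A) (hB' : LocE S2 B) :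
    Pr (fun _ => q) S (fun F => A F ∧ B F) ≤ Pr (fun _ => q) S1 A * Pr (fun _ => q) S2 B := by
  have hi : IncA (fun F => A F ∧ B F) := fun F G h hF => ⟨hA F G h hF.1, hB F G h hF.2⟩
  have hl : LocE (S1 ∪ S2) (fun F => A F ∧ B F) := by
    intro F
    show (A F ∧ B F) ↔ (A (F ∩ (S1 ∪ S2)) ∧ B (F ∩ (S1 ∪ S2)))
    rw [hA' F, hB' F, hA' (F ∩ (S1 ∪ S2)), hB' (F ∩ (S1 ∪ S2))]
    have e1 : F ∩ (S1 ∪ S2) ∩ S1 = F ∩ S1 := by
      ext e; simp only [Finset.mem_inter, Finset.mem_union]; tauto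
    have e2 : F ∩ (S1 ∪ S2) ∩ S2 = F ∩ S2 := by
      ext e; simp only [Finset.mem_inter, Finset.mem_union]; tauto
    rw [e1, e2]
  have h1 := qr_le_loc ok S (S1 ∪ S2) hi hl
  have h2 : Pr (fun _ => q) (S1 ∪ S2) (fun F => A F ∧ B F) =
      Pr (fun _ => q) (S1 ∪ S2) A * Pr (fun _ => q) (S1 ∪ S2) B :=
    Pr_indep Finset.subset_union_left Finset.subset_union_right hd (fun F _ => hA' F)
      (fun F _ => hB' F)
  have h3 : Pr (fun _ => q) (S1 ∪ S2) A = Pr (fun _ => q) S1 A :=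
    Pr_local Finset.subset_union_left (fun F _ => hA' F)
  have h4 : Pr (fun _ => q) (S1 ∪ S2) B = Pr (fun _ => q) S2 B :=
    Pr_local Finset.subset_union_right (fun F _ => hB' F)
  rw [h2, h3, h4] at h1
  exact h1

theorem qr_LA {q : ℝ} (h0 : 0 ≤ q) (h1 : q ≤ 1) (S : Finset Edg) (v : Vtx) (m : ℕ) :
    Pr (fun _ => q) S (LA v m) ≤ arm q m := by
  refine le_trans (Pr_mono (okq h0 h1) ?_) (arm_bound h0 h1 S v m)
  rintro F _ ⟨w, -, k2, k3⟩
  exact ⟨w, by omega, k3.mono Set.inter_subset_left⟩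

theorem qr_CA {q : ℝ} (h0 : 1 / 2 ≤ q) (h1 : q ≤ 1) {c : Vtx} {n : ℕ} (hn : 1 ≤ n)
    {S : Finset Edg} (hS : bo c (3 * n) ⊆ S) :
    (1 / 2 : ℝ) ^ 188 ≤ Pr (fun _ => q) S (CA c n (3 * n)) := by
  have h0' : Pr (fun _ => q) S (CA c n (3 * n)) =
      Pr (fun _ => q) ((trl (-c.1) (-c.2)).mp S) (Circ n ((3 * n : ℕ) : ℤ)) :=
    (LSym.pr (trl (-c.1) (-c.2)) q S _).symm
  rw [h0']
  have hn' : (0 : ℤ) < n := by exact_mod_cast hn
  have hsub : boxE (3 * n) ⊆ (trl (-c.1) (-c.2)).mp S := by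
    rw [← trl_bo c (3 * n)]
    exact LSym.mp_mono _ hS
  refine le_trans ?_ (pr_Circ (q := q) (by linarith) h1 (R1 := n)
      (R2 := ((3 * n : ℕ) : ℤ)) (by positivity) (by push_cast; omega) hsub)
  have k := rsw_p (p := q) h0 h1 (n := n) (w := 2 * ((3 * n : ℕ) : ℤ))
      (h := ((3 * n : ℕ) : ℤ) - n) hn' (by push_cast; omega) (by push_cast; omega)
      (by push_cast; omega)
  calc (1 / 2 : ℝ) ^ 188 = ((1 / 2 : ℝ) ^ 47) ^ 4 := by norm_num
      _ ≤ _ := pow_le_pow_left₀ (by positivity) k 4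

/-- adding a point: the neighbourhood of the new point is decoupled -/
theorem add_point {q : ℝ} (h0 : 1 / 2 ≤ q) (h1 : q ≤ 1) {X : Finset Vtx} {x y : Vtx} {r : ℕ}
    (hy : y ∈ X) (hr1 : 1 ≤ r) (hX : ∀ u ∈ X, 3 * r ≤ nv (u - x)) {S : Finset Edg}
    (hS : bo x (3 * r) ⊆ S) :
    Pr (fun _ => q) S (fun F => Cn (insert x X) (↑F)) ≤
      2 ^ 188 * (arm q r * Pr (fun _ => q) S (fun F => Cn X (↑F))) := by
  classical
  have hq0 : 0 ≤ q := by linarith
  have ok : Ok (fun _ : Edg => q) := okq hq0 h1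
  set B := bo x r with hB
  set S2 := S \ B with hS2
  set E : Finset Edg → Prop := fun F => Cn X (↑(F ∩ S2) ∪ ↑B) with hE
  have hEi : IncA E := by
    intro F G h hF
    refine Cn.mono (Set.union_subset_union_left _ ?_) hF
    exact_mod_cast Finset.inter_subset_inter_right h
  have hEl : LocE S2 E := by
    intro F
    rw [hE]
    simp only [Finset.inter_assoc, Finset.inter_self]
  have hd : Disjoint B S2 := by rw [hS2]; exact Finset.disjoint_sdiff
  have s1 : Pr (fun _ => q) S (fun F => Cn (insert x X) (↑F)) ≤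
      Pr (fun _ => q) S (fun F => LA x r F ∧ E F) := by
    apply Pr_mono ok
    intro F hFS hF
    have hyx := hX y hy
    refine ⟨LA_of_reach (u := y) (by omega)
      (hF x (Finset.mem_insert_self _ _) y (Finset.mem_insert_of_mem hy)), ?_⟩
    intro u hu v hv
    refine (hF u (Finset.mem_insert_of_mem hu) v (Finset.mem_insert_of_mem hv)).mono ?_
    intro e he
    by_cases h1 : e ∈ B
    · exact Or.inr (by exact_mod_cast h1)
    · left
      rw [Finset.mem_coe, Finset.mem_inter, hS2, Finset.mem_sdiff]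
      exact ⟨Finset.mem_coe.mp he, hFS (Finset.mem_coe.mp he), h1⟩
  have s2 := indepq ok S B S2 hd (LA_inc x r) hEi (LA_loc (Finset.Subset.refl _)) hEl
  have s3 : Pr (fun _ => q) B (LA x r) ≤ arm q r := qr_LA hq0 h1 _ _ _
  have s4 : Pr (fun _ => q) S2 E ≤ Pr (fun _ => q) S E :=
    Pr_mono_set ok Finset.sdiff_subset (fun F G h _ => hEi F G h)
  have hcirc : (1 / 2 : ℝ) ^ 188 ≤ Pr (fun _ => q) S (CA x r (3 * r)) := qr_CA h0 h1 hr1 hS
  have s5 : Pr (fun _ => q) S E * Pr (fun _ => q) S (CA x r (3 * r)) ≤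
      Pr (fun _ => q) S (fun F => Cn X (↑F)) := by
    refine (Pr_harris ok (fun F G h _ => hEi F G h) (CA_incr S x r (3 * r))).trans ?_
    apply Pr_mono ok
    rintro F _ ⟨h1, h2⟩
    intro u hu v hv
    refine unwire_in (c := x) (R1 := r) (R2 := 3 * r) (by omega) h2 (A := ↑B) ?_
      (hX u hu) (hX v hv) ?_
    · intro e he
      exact bo_ends (Finset.mem_coe.mp he)
    · refine (h1 u hu v hv).mono (Set.union_subset_union_left _ ?_)
      exact_mod_cast Finset.inter_subset_left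
  have p0 : 0 ≤ Pr (fun _ => q) S E := Pr_nonneg ok _ _
  have p1 : 0 ≤ arm q r := arm_nonneg hq0 h1 r
  have s6 : Pr (fun _ => q) S E ≤ 2 ^ 188 * Pr (fun _ => q) S (fun F => Cn X (↑F)) := by
    have h1 : Pr (fun _ => q) S E * (1 / 2 : ℝ) ^ 188 ≤ Pr (fun _ => q) S (fun F => Cn X (↑F)) :=
      (mul_le_mul_of_nonneg_left hcirc p0).trans s5
    have h2 : Pr (fun _ => q) S E = 2 ^ 188 * (Pr (fun _ => q) S E * (1 / 2 : ℝ) ^ 188) := by
      rw [mul_comm (Pr (fun _ => q) S E), ← mul_assoc, ← mul_pow]; norm_num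
    rw [h2]
    exact mul_le_mul_of_nonneg_left h1 (by positivity)
  calc Pr (fun _ => q) S (fun F => Cn (insert x X) (↑F))
      ≤ Pr (fun _ => q) B (LA x r) * Pr (fun _ => q) S2 E := s1.trans s2
    _ ≤ arm q r * (2 ^ 188 * Pr (fun _ => q) S (fun F => Cn X (↑F))) :=
        mul_le_mul s3 (s4.trans s6) (Pr_nonneg ok _ _) p1
    _ = _ := by ring

/-- two points -/
theorem two_points {q : ℝ} (h0 : 0 ≤ q) (h1 : q ≤ 1) {x y : Vtx} {r : ℕ}
    (hxy : 2 * r + 1 ≤ nv (x - y)) (S : Finset Edg) :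
    Pr (fun _ => q) S (fun F => Cn {x, y} (↑F)) ≤ arm q r * arm q r := by
  have ok : Ok (fun _ : Edg => q) := okq h0 h1
  have hyx : nv (y - x) = nv (x - y) := by
    unfold nv
    simp only [Prod.fst_sub, Prod.snd_sub]
    omega
  have s1 : Pr (fun _ => q) S (fun F => Cn {x, y} (↑F)) ≤
      Pr (fun _ => q) S (fun F => LA x r F ∧ LA y r F) := by
    apply Pr_mono ok
    intro F _ hF
    have hr := hF x (by simp) y (by simp)
    exact ⟨LA_of_reach (u := y) (by omega) hr, LA_of_reach (u := x) (by omega) hr.symm⟩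
  refine s1.trans ((indepq ok S (bo x r) (bo y r) (bo_disj (by omega)) (LA_inc x r) (LA_inc y r)
    (LA_loc (Finset.Subset.refl _)) (LA_loc (Finset.Subset.refl _))).trans ?_)
  exact mul_le_mul (qr_LA h0 h1 _ _ _) (qr_LA h0 h1 _ _ _) (Pr_nonneg ok _ _)
    (arm_nonneg h0 h1 r)

end Pool.Agent.U167.GE
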