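import Pool.Agent.W424.NC.ArmUp

/-!
The radius of finite clusters beyond the correlation length.
-/

set_option autoImplicit false

namespace Pool.Agent.U167.GE

open Finset H974 H31K Pool.Agent.W424.NC

/-- the radius lies between `2 M` and `4 M` -/
def Shell (M : ℕ) (F : Finset Edg) : Prop := Arm (2 * M) F ∧ ¬ Arm (2 * (2 * M)) F

theorem shell_sup {p : ℝ} (h0 : 0 ≤ p) (h1 : p ≤ 1) {N : ℕ} (hN : 2 ≤ N)
    (he : eps p N ≤ 1/100) (i : ℕ) {S : Finset Edg} (hS : boxE (2 * (2 * (2^i * N))) ⊆ S) :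
    Pr (fun _ => p) S (Shell (2^i * N)) ≤ 4 * (arm p N * (1/4)^(2^i)) := by
  have ok := okq h0 h1
  obtain ⟨M, hM⟩ : ∃ M : ℕ, M = 2^i * N := ⟨_, rfl⟩
  have hNM : N ≤ M := by rw [hM]; exact Nat.le_mul_of_pos_left _ (by positivity)
  have e1 := eps_pow2 h0 h1 hN he i
  have e2 := eps_pow2 h0 h1 hN he (i + 1)
  have e3 : 2^(i+1) * N = 2 * M := by rw [hM]; ring
  rw [← hM] at e1 hS ⊢
  rw [e3] at e2
  have e4 : ((1:ℝ)/4)^(2^(i+1)) ≤ (1/4)^(2^i) := by
    apply pow_le_pow_of_le_one (by norm_num) (by norm_num)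
    exact Nat.pow_le_pow_right (by norm_num) (by omega)
  -- the good event
  have s1 : boxE (2 * M) ⊆ S := (boxE_mono (by omega)).trans hS
  have g1 := pr_circ_ge h0 h1 (N := M) (by omega) s1
  have g2 := pr_step (p := p) (N := M) (j := 0) (S := S) (by simpa using s1)
  have g3 := pr_step (p := p) (N := M) (j := 1) (S := S) (by simpa using hS)
  rw [pow_zero, one_mul] at g2
  rw [pow_one] at g3
  have i1 := Pr_and_ge ok S (Step M 0) (Step M 1)
  have i2 := Pr_and_ge ok S (Circ M (2 * M : ℕ)) (fun F => Step M 0 F ∧ Step M 1 F)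
  have hG : Pr (fun _ => p) S (fun F => ¬ (Circ M (2 * M : ℕ) F ∧ (Step M 0 F ∧ Step M 1 F))) ≤
      (1/4)^(2^i) := by
    rw [Pr_not]
    have e5 : (0:ℝ) ≤ (1/4)^(2^i) := by positivity
    linarith
  have h3 : Pr (fun _ => p) S (Shell M) ≤ Pr (fun _ => p) S (fun F => Arm (2 * M) F ∧
      ¬ (Circ M (2 * M : ℕ) F ∧ (Step M 0 F ∧ Step M 1 F))) := by
    apply Pr_mono ok
    rintro F _ ⟨k1, k2⟩
    refine ⟨k1, ?_⟩
    rintro ⟨k3, k4, k5⟩
    apply k2
    have := arm_of_chain (N := M) (by omega) 1 k1 k3 (fun j hj => by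
      rcases Nat.le_one_iff_eq_zero_or_eq_one.1 hj with rfl | rfl
      · exact k4
      · exact k5)
    simpa using this
  have h4 := Pr_harris_decr ok (S := S) (A := Arm (2 * M))
    (B := fun F => ¬ (Circ M (2 * M : ℕ) F ∧ (Step M 0 F ∧ Step M 1 F))) (Arm_incr S _)
    (by
      intro F G h _ hF
      rw [not_not] at hF ⊢
      exact ⟨hF.1.mono h, hF.2.1.mono h, hF.2.2.mono h⟩)
  rw [pr_Arm p s1] at h4
  have h5 : arm p (2 * M) ≤ arm p N := arm_anti h0 h1 (by omega)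
  have h6 := arm_nonneg h0 h1 N
  have h7 : (0:ℝ) ≤ (1/4)^(2^i) := by positivity
  have h8 : 0 ≤ arm p N * (1/4)^(2^i) := mul_nonneg h6 h7
  calc Pr (fun _ => p) S (Shell M) ≤ _ := h3
    _ ≤ _ := h4
    _ ≤ arm p N * (1/4)^(2^i) := mul_le_mul h5 hG (Pr_nonneg ok _ _) h6
    _ ≤ _ := by linarith

theorem shell_sub {p : ℝ} (h0 : 0 ≤ p) (h1 : p ≤ 1) {N : ℕ} (hN : 2 ≤ N)
    (he : eps (1 - p) N ≤ 1/100) (i : ℕ) {S : Finset Edg} (hS : boxE (2 * (2 * (2^i * N))) ⊆ S) :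
    Pr (fun _ => p) S (Shell (2^i * N)) ≤ 4 * (arm p N * (1/4)^(2^i)) := by
  have ok := okq h0 h1
  have s1 : boxE (2 * (2^i * N)) ⊆ S := (boxE_mono (by omega)).trans hS
  have h3 : Pr (fun _ => p) S (Shell (2^i * N)) ≤ Pr (fun _ => p) S (Arm (2 * (2^i * N))) :=
    Pr_mono ok (fun F _ h => h.1)
  rw [pr_Arm p s1] at h3
  have h6 := arm_nonneg h0 h1 N
  refine h3.trans ?_
  rcases Nat.eq_zero_or_pos i with rfl | hi
  · have h5 : arm p (2 * (2^0 * N)) ≤ arm p N := arm_anti h0 h1 (by simp; omega)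
    refine h5.trans (le_of_eq ?_)
    norm_num
    ring
  · have := arm_far h0 h1 hN he hi
    have h8 : 0 ≤ arm p N * (1/4)^(2^i) := mul_nonneg h6 (by positivity)
    linarith

end Pool.Agent.U167.GE
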