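import Pool.Agent.U167.GE.MomB
import Pool.Agent.U167.GE.Rad
import Pool.Agent.U167.AL.Fin

/-!
Moments of the size of a finite cluster in infinite volume.
-/

set_option autoImplicit false
set_option maxHeartbeats 1000000

namespace Pool.Agent.U167.GE

open Finset H974 Pool.Agent.H160R2.CV MeasureTheory

theorem lint_ex (p : unitInterval) (S : Finset Edg) {f : Finset Edg → ℝ} (hf : ∀ F, 0 ≤ f F) :
    ∫⁻ ω, ENNReal.ofReal (f (FF S ω)) ∂(bondLaw p) = ENNReal.ofReal (Ex (fun _ => (p:ℝ)) S f) := by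
  classical
  have hint : Integrable (fun ω => f (FF S ω)) (bondLaw p) := by
    have h1 : (fun ω : sqLattice.edgeSet → Bool => f (FF S ω)) = fun ω =>
        ∑ T ∈ S.powerset, ({ω | FF S ω = T} : Set (sqLattice.edgeSet → Bool)).indicator
          (fun _ => f T) ω := by
      funext ω
      rw [Finset.sum_eq_single (FF S ω)]
      · rw [Set.indicator_of_mem]
        exact rfl
      · intro T _ hT
        rw [Set.indicator_of_notMem]
        exact fun h => hT h.symm
      · intro h
        exact absurd (Finset.mem_powerset.2 (Finset.filter_subset _ _)) h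
    rw [h1]
    refine integrable_finsetSum _ fun T _ => ?_
    exact (integrable_const _).indicator (meas_FF S T)
  rw [← Pool.Agent.U167.AL.law_ex p S f, ofReal_integral_eq_lintegral_ofReal hint]
  exact Filter.Eventually.of_forall fun ω => hf _

theorem meas_f (S : Finset Edg) (f : Finset Edg → ℝ) :
    Measurable (fun ω : sqLattice.edgeSet → Bool => ENNReal.ofReal (f (FF S ω))) := by
  classical
  apply ENNReal.measurable_ofReal.comp
  have h1 : (fun ω : sqLattice.edgeSet → Bool => f (FF S ω)) = fun ω =>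
      ∑ T ∈ S.powerset, ({ω | FF S ω = T} : Set (sqLattice.edgeSet → Bool)).indicator
        (fun _ => f T) ω := by
    funext ω
    rw [Finset.sum_eq_single (FF S ω)]
    · rw [Set.indicator_of_mem]
      exact rfl
    · intro T _ hT
      rw [Set.indicator_of_notMem]
      exact fun h => hT h.symm
    · intro h
      exact absurd (Finset.mem_powerset.2 (Finset.filter_subset _ _)) h
  rw [h1]
  exact Finset.measurable_sum _ fun T _ => measurable_const.indicator (meas_FF S T)

/-- a path that does not reach the boundary of the box stays in the box -/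
theorem reach_in {G : Set Edg} {n : ℕ}
    (h : ¬ ∃ v, onB n v ∧ Reach (G ∩ ↑(boxE n)) (0, 0) v) {x : Vtx} (hx : Reach G (0, 0) x) :
    Reach (G ∩ ↑(boxE n)) (0, 0) x ∧ nv x ≤ n := by
  induction hx with
  | refl => exact ⟨Reach.refl _ _, by unfold nv; simp⟩
  | tail _ hs ih =>
    rename_i b c _
    obtain ⟨h1, h2⟩ := ih
    have h3 : ¬ onB n b := fun hb => h ⟨b, hb, h1⟩
    have h4 : inR (-n) n (-n) n b ∧ b.1 ≠ -n ∧ b.1 ≠ n ∧ b.2 ≠ -n ∧ b.2 ≠ n := by
      unfold onB at h3
      unfold nv at h2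
      unfold inR at h3 ⊢
      omega
    obtain ⟨e, he, hcase⟩ := hs
    obtain ⟨h5, h6, h7, h8, h9⟩ := h4
    unfold inR at h5
    obtain ⟨b1, b2⟩ := b
    obtain ⟨c1, c2⟩ := c
    simp only at h5 h6 h7 h8 h9
    have hbox : e ∈ boxE n ∧ nv (c1, c2) ≤ n := by
      obtain ⟨a1, a2, _ | _⟩ := e
      · unfold src at hcase
        rw [tgt_false] at hcase
        simp only [Prod.mk.injEq] at hcase
        unfold boxE nv
        simp only [mem_RE_false]
        omega
      · unfold src at hcase
        rw [tgt_true] at hcase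
        simp only [Prod.mk.injEq] at hcase
        unfold boxE nv
        simp only [mem_RE_true]
        omega
    refine ⟨h1.trans ?_, hbox.2⟩
    exact Relation.ReflTransGen.single ⟨e, ⟨he, by exact_mod_cast hbox.1⟩, hcase⟩

/-- the size of the cluster of the origin when its radius is smaller than `n` -/
theorem clus_le {ω : sqLattice.edgeSet → Bool} {n : ℕ} {S : Finset Edg} (hS : boxE n ⊆ S)
    (h : ¬ Arm n (FF S ω)) : (cluster0 ω).Finite ∧
      ((cluster0 ω).ncard : ℝ) ≤ VB (bx n) (FF S ω) := by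
  classical
  have h1 : ¬ ∃ v, onB n v ∧ Reach (opn ω ∩ ↑(boxE n)) (0, 0) v := by
    rintro ⟨v, hv, hr⟩
    apply h
    refine ⟨v, hv, hr.mono ?_⟩
    rw [FF_coe]
    rintro e ⟨h2, h3⟩
    exact ⟨⟨h2, hS h3⟩, h3⟩
  have h2 : cluster0 ω ⊆ ↑((bx n).filter (fun x => TP x (FF S ω))) := by
    intro x hx
    have h3 : Reach (opn ω) (0, 0) x := (open_reach ω _ _).mp hx
    obtain ⟨h4, h5⟩ := reach_in h1 h3
    rw [Finset.mem_coe, Finset.mem_filter]
    refine ⟨mem_bx.2 h5, ?_⟩
    show Reach (↑(FF S ω) : Set Edg) (0, 0) x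
    rw [FF_coe]
    exact h4.mono (Set.inter_subset_inter_right _ (by exact_mod_cast hS))
  refine ⟨(Finset.finite_toSet _).subset h2, ?_⟩
  have h3 := Set.ncard_le_ncard h2 (Finset.finite_toSet _)
  rw [Set.ncard_coe_finset] at h3
  have h4 : (((bx n).filter (fun x => TP x (FF S ω))).card : ℝ) = VB (bx n) (FF S ω) := by
    unfold VB
    rw [Finset.card_filter]
    push_cast
    apply Finset.sum_congr rfl
    intro x _
    unfold ind
    rfl
  rw [← h4]
  exact_mod_cast h3

theorem no_arm {ω : sqLattice.edgeSet → Bool} (h : (cluster0 ω).Finite) : ∃ m : ℕ, ∀ n : ℕ,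
    m < n → ∀ S : Finset Edg, ¬ Arm n (FF S ω) := by
  classical
  obtain ⟨m, hm⟩ : ∃ m : ℕ, ∀ x ∈ cluster0 ω, nv x ≤ m := by
    have h1 := (h.image nv).bddAbove
    obtain ⟨m, hm⟩ := h1
    exact ⟨m, fun x hx => hm (Set.mem_image_of_mem _ hx)⟩
  refine ⟨m, ?_⟩
  rintro n hn S ⟨v, hv, hr⟩
  have h1 : Reach (opn ω) (0, 0) v := by
    refine hr.mono ?_
    rw [FF_coe]
    intro e he
    exact he.1.1
  have h2 := hm v ((open_reach ω _ _).mpr h1)
  unfold onB inR at hv
  unfold nv at h2
  omega

end Pool.Agent.U167.GE
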