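import Pool.Agent.U167.GE.Up2
import Pool.Agent.H31R3.Kes.GLow

/-!
Lower bounds for the truncated moments.
-/

set_option autoImplicit false
set_option maxHeartbeats 1000000

namespace Pool.Agent.U167.GE

open Finset H974 Pool.Agent.H160R2.CV MeasureTheory Pool.Agent.W424.NC

/-- a dual circuit in an annulus -/
theorem pr_blk_ge {q κ : ℝ} (h0 : 0 ≤ q) (h1 : q ≤ 1) (hκ : 0 ≤ κ) {m : ℕ} (hm : 1 ≤ m)
    (hd : κ ≤ hh (1 - q) (6 * m + 1) (2 * m - 1)) {S : Finset Edg}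
    (hS : annE m (3 * m) ⊆ S) :
    κ ^ 4 ≤ Pr (fun _ => q) S (Blk m (3 * m : ℕ)) := by
  have hm' : (1:ℤ) ≤ m := by exact_mod_cast hm
  have ok := okq h0 h1
  obtain ⟨s1, s2, s3, s4⟩ := ann_sub (n := m) (m := 3 * m) (by omega)
  set R2 : ℤ := ((3 * m : ℕ) : ℤ) with hR2
  have hR2' : R2 = 3 * m := by rw [hR2]; push_cast; ring
  have e1 := pr_LRc q (s1.trans hS)
  have e2 := pr_LRc q (s2.trans hS)
  have e3 := pr_TBc q (s3.trans hS)
  have e4 := pr_TBc q (s4.trans hS)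
  have d1 : R2 - m = 2 * m := by omega
  have d2 : R2 - -R2 = 6 * m := by omega
  have d3 : -(m:ℤ) - -R2 = 2 * m := by omega
  rw [d1, d2] at e1
  rw [d3, d2] at e2
  rw [d1, d2] at e3
  rw [d3, d2] at e4
  have hdual := hh_dual (q := q) (w := 2 * m) (h := 6 * m) (by omega) (by omega)
  have hval : κ ≤ 1 - hh q (2 * m) (6 * m) := by linarith
  have i1 := Pr_harris_dd ok (LRc_incr S m R2 (-R2) R2) (LRc_incr S (-R2) (-m) (-R2) R2)
  have i2 := Pr_harris_dd ok (TBc_incr S (-R2) R2 m R2) (TBc_incr S (-R2) R2 (-R2) (-m))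
  rw [e1, e2] at i1
  rw [e3, e4] at i2
  have c1 : IncrE S (fun F => LRc m R2 (-R2) R2 F ∨ LRc (-R2) (-m) (-R2) R2 F) :=
    fun F G hFG _ hF => hF.imp (LRc.mono hFG) (LRc.mono hFG)
  have c2 : IncrE S (fun F => TBc (-R2) R2 m R2 F ∨ TBc (-R2) R2 (-R2) (-m) F) :=
    fun F G hFG _ hF => hF.imp (TBc.mono hFG) (TBc.mono hFG)
  have i3 := Pr_harris_dd ok c1 c2
  rw [← Pr_not, ← Pr_not] at i3
  have j1 : Pr (fun _ => q) S (fun F => ¬ (LRc m R2 (-R2) R2 F ∨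
      LRc (-R2) (-m) (-R2) R2 F)) = Pr (fun _ => q) S (fun F => ¬ LRc m R2 (-R2) R2 F ∧
      ¬ LRc (-R2) (-m) (-R2) R2 F) := Pr_congr (fun F _ => not_or)
  have j2 : Pr (fun _ => q) S (fun F => ¬ (TBc (-R2) R2 m R2 F ∨
      TBc (-R2) R2 (-R2) (-m) F)) = Pr (fun _ => q) S (fun F => ¬ TBc (-R2) R2 m R2 F ∧
      ¬ TBc (-R2) R2 (-R2) (-m) F) := Pr_congr (fun F _ => not_or)
  rw [j1, j2] at i3
  have k1 : κ * κ ≤ (1 - hh q (2 * m) (6 * m)) * (1 - hh q (2 * m) (6 * m)) :=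
    mul_le_mul hval hval hκ (hκ.trans hval)
  have k2 : (κ * κ) * (κ * κ) ≤ _ := mul_le_mul (k1.trans i1) (k1.trans i2) (by positivity)
    ((by positivity : 0 ≤ κ * κ).trans (k1.trans i1))
  calc κ ^ 4 = (κ * κ) * (κ * κ) := by ring
    _ ≤ _ := k2
    _ ≤ _ := i3

/-- the tangent line inequality -/
theorem tangent {V lam : ℝ} (hV : 0 ≤ V) (hl : 0 < lam) (m : ℕ) :
    ((m:ℝ) + 1) * lam ^ m * V - m * lam ^ (m + 1) ≤ V ^ (m + 1) := by
  obtain ⟨y, hy⟩ : ∃ y : ℝ, y = V / lam - 1 := ⟨_, rfl⟩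
  have hy1 : -2 ≤ y := by
    have : 0 ≤ V / lam := by positivity
    rw [hy]; linarith
  have hV2 : V = lam * (1 + y) := by rw [hy]; field_simp; ring
  have h := one_add_mul_le_pow hy1 (m + 1)
  rw [hV2, mul_pow]
  have hlp : 0 < lam ^ (m + 1) := by positivity
  have h2 := mul_le_mul_of_nonneg_left h hlp.le
  refine le_trans (le_of_eq ?_) h2
  push_cast
  ring

/-- the far points -/
noncomputable def farB (r : ℕ) : Finset Vtx :=
  Finset.Icc (((r + 1) / 2 : ℕ) : ℤ) r ×ˢ Finset.Icc (-(r:ℤ)) r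

theorem farB_card (r : ℕ) : (r:ℝ) ^ 2 ≤ ((farB r).card : ℝ) := by
  unfold farB
  rw [Finset.card_product, Int.card_Icc, Int.card_Icc]
  have h1 : r ≤ 2 * ((r:ℤ) + 1 - (((r + 1) / 2 : ℕ) : ℤ)).toNat := by omega
  have h2 : ((r:ℤ) + 1 - -(r:ℤ)).toNat = 2 * r + 1 := by omega
  rw [h2]
  have h3 : r * r ≤ ((r:ℤ) + 1 - (((r + 1) / 2 : ℕ) : ℤ)).toNat * (2 * r + 1) := by
    nlinarith [Nat.zero_le ((r:ℤ) + 1 - (((r + 1) / 2 : ℕ) : ℤ)).toNat]
  rw [sq]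
  exact_mod_cast h3

theorem mem_farB {r : ℕ} {x : Vtx} (h : x ∈ farB r) :
    inR (-r) r (-r) r (x.1, x.2) ∧ (((r + 1) / 2 : ℕ) : ℤ) ≤ x.1 := by
  unfold farB at h
  rw [Finset.mem_product, Finset.mem_Icc, Finset.mem_Icc] at h
  unfold inR
  simp only
  omega

/-- the number of far points connected to the origin in the inner box -/
noncomputable def VF (r : ℕ) (F : Finset Edg) : ℝ :=
  ∑ x ∈ farB r, ind (TP x (F ∩ boxE (5 * r)))

theorem VF_nonneg (r : ℕ) (F : Finset Edg) : 0 ≤ VF r F :=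
  Finset.sum_nonneg fun _ _ => ind_nonneg _

theorem tp_arm {r : ℕ} {x : Vtx} (hx : x ∈ farB r) {F : Finset Edg}
    (h : TP x (F ∩ boxE (5 * r))) : Arm ((r + 1) / 2) F := by
  obtain ⟨h1, h2⟩ := mem_farB hx
  have h3 : Reach (↑(F ∩ boxE (5 * r)) : Set Edg) (0, 0) x := h
  obtain ⟨w, k1, k2, k3⟩ := first_exit (a := -(((r + 1) / 2 : ℕ) : ℤ))
    (b := (((r + 1) / 2 : ℕ) : ℤ)) (c := -(((r + 1) / 2 : ℕ) : ℤ))
    (d := (((r + 1) / 2 : ℕ) : ℤ)) (u := (0, 0)) (by unfold inR; simp only; omega) h3 (by omega)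
  refine ⟨w, ⟨k1, k2⟩, k3.mono ?_⟩
  apply Set.inter_subset_inter_left
  exact_mod_cast Finset.inter_subset_left

theorem VF_zero {r : ℕ} {F : Finset Edg} (h : ¬ Arm ((r + 1) / 2) F) : VF r F = 0 := by
  unfold VF
  apply Finset.sum_eq_zero
  intro x hx
  apply ind_not_of
  intro h2
  exact h (tp_arm hx h2)

/-- the moment lower bound in finite volume -/
theorem mom_ge {q : ℝ} (h0 : 0 ≤ q) (h1 : q ≤ 1) {r : ℕ} (hr : 1 ≤ r) (m : ℕ) {mu rho' : ℝ}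
    (hmu : 0 < mu) (hrho : 0 < rho')
    (hV : mu ≤ ∑ x ∈ farB r, Pr (fun _ => q) (boxE (5 * r)) (TP x))
    (hA : arm q ((r + 1) / 2) ≤ rho') :
    Pr (fun _ => q) (boxE (3 * (5 * r))) (Blk ((5 * r : ℕ) : ℤ) ((3 * (5 * r) : ℕ) : ℤ)) *
      (mu * (mu / rho') ^ m) ≤
    Ex (fun _ => q) (boxE (3 * (5 * r))) (fun F => VF r F ^ (m + 1) *
      ind (Blk ((5 * r : ℕ) : ℤ) ((3 * (5 * r) : ℕ) : ℤ) F)) := by
  have ok := okq h0 h1
  obtain ⟨S, hS⟩ : ∃ S : Finset Edg, S = boxE (3 * (5 * r)) := ⟨_, rfl⟩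
  obtain ⟨D, hD⟩ : ∃ D : Finset Edg → Prop,
      D = Blk ((5 * r : ℕ) : ℤ) ((3 * (5 * r) : ℕ) : ℤ) := ⟨_, rfl⟩
  have s1 : boxE (5 * r) ⊆ S := by rw [hS]; exact boxE_mono (by omega)
  have s2 : annE (5 * r) (3 * (5 * r)) ⊆ S := by rw [hS]; exact annE_sub _ _
  have hd : Disjoint (boxE (5 * r)) (annE (5 * r) (3 * (5 * r))) := by
    unfold annE
    exact Finset.disjoint_sdiff
  have hDl : ∀ F, F ⊆ S → (D F ↔ D (F ∩ annE (5 * r) (3 * (5 * r)))) := by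
    intro F _
    rw [hD]
    exact Blk_local (by omega) (Finset.Subset.refl _) F
  rw [← hS, ← hD]
  obtain ⟨lam, hlam⟩ : ∃ lam : ℝ, lam = mu / rho' := ⟨_, rfl⟩
  have hlam0 : 0 < lam := by rw [hlam]; positivity
  rw [← hlam]
  have hPD : 0 ≤ Pr (fun _ => q) S D := Pr_nonneg ok _ _
  -- pointwise
  have hpt : ∀ F, F ⊆ S → ((m:ℝ) + 1) * lam ^ m *
      (∑ x ∈ farB r, ind (TP x (F ∩ boxE (5 * r)) ∧ D F)) -
        (m * lam ^ (m + 1)) * ind (Arm ((r + 1) / 2) F ∧ D F) ≤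
      VF r F ^ (m + 1) * ind (D F) := by
    intro F _
    have e1 : ∑ x ∈ farB r, ind (TP x (F ∩ boxE (5 * r)) ∧ D F) = VF r F * ind (D F) := by
      unfold VF
      rw [Finset.sum_mul]
      exact Finset.sum_congr rfl fun x _ => ind_and _ _
    rw [e1, ind_and]
    have h2 : 0 ≤ ind (D F) := ind_nonneg _
    by_cases hArm : Arm ((r + 1) / 2) F
    · rw [ind_of hArm, one_mul]
      have h3 := mul_le_mul_of_nonneg_right (tangent (VF_nonneg r F) hlam0 m) h2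
      linarith
    · rw [ind_not_of hArm, VF_zero hArm]
      simp
  have hE := Ex_mono ok hpt
  rw [Ex_sub, Ex_mul_left, Ex_mul_left, Ex_sum] at hE
  have e2 : ∀ x ∈ farB r, Ex (fun _ => q) S (fun F => ind (TP x (F ∩ boxE (5 * r)) ∧ D F)) =
      Pr (fun _ => q) (boxE (5 * r)) (TP x) * Pr (fun _ => q) S D := by
    intro x _
    have h3 := Pr_indep (p := fun _ => q) s1 s2 hd (A := fun F => TP x (F ∩ boxE (5 * r)))
      (B := D) (fun F _ => by rw [Finset.inter_assoc, Finset.inter_self]) hDl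
    have h4 : Pr (fun _ => q) S (fun F => TP x (F ∩ boxE (5 * r))) =
        Pr (fun _ => q) (boxE (5 * r)) (TP x) := by
      rw [Pr_local (A := fun F => TP x (F ∩ boxE (5 * r))) s1
        (fun F _ => by rw [Finset.inter_assoc, Finset.inter_self])]
      apply Pr_congr
      intro F hF
      rw [Finset.inter_eq_left.2 hF]
    rw [← h4, ← h3]
    rfl
  have e3 : Ex (fun _ => q) S (fun F => ind (Arm ((r + 1) / 2) F ∧ D F)) =
      arm q ((r + 1) / 2) * Pr (fun _ => q) S D := by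
    have s3 : boxE ((r + 1) / 2) ⊆ boxE (5 * r) := boxE_mono (by omega)
    have h3 := Pr_indep (p := fun _ => q) s1 s2 hd (A := Arm ((r + 1) / 2))
      (B := D) (fun F _ => Arm_local s3) hDl
    rw [pr_Arm q (s3.trans s1)] at h3
    rw [← h3]
    rfl
  rw [Finset.sum_congr rfl e2, ← Finset.sum_mul, e3] at hE
  refine le_trans ?_ hE
  obtain ⟨T, hT⟩ : ∃ T : ℝ, T = ∑ x ∈ farB r, Pr (fun _ => q) (boxE (5 * r)) (TP x) := ⟨_, rfl⟩
  rw [← hT] at hV ⊢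
  have h5 : mu * lam ^ m ≤ ((m:ℝ) + 1) * lam ^ m * T - m * lam ^ (m + 1) *
      arm q ((r + 1) / 2) := by
    have h6 : ((m:ℝ) + 1) * lam ^ m * mu ≤ ((m:ℝ) + 1) * lam ^ m * T :=
      mul_le_mul_of_nonneg_left hV (by positivity)
    have h7 : m * lam ^ (m + 1) * arm q ((r + 1) / 2) ≤ m * lam ^ (m + 1) * rho' :=
      mul_le_mul_of_nonneg_left hA (by positivity)
    have h8 : (m:ℝ) * lam ^ (m + 1) * rho' = m * lam ^ m * mu := by
      have : lam * rho' = mu := by rw [hlam]; field_simp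
      rw [pow_succ, ← this]; ring
    linarith
  have h9 := mul_le_mul_of_nonneg_left h5 hPD
  linarith

end Pool.Agent.U167.GE
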