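import Pool.Agent.U167.GE.Low

/-!
Lower bounds for the truncated moments in infinite volume.
-/

set_option autoImplicit false
set_option maxHeartbeats 1000000

namespace Pool.Agent.U167.GE

open Finset H974 Pool.Agent.H160R2.CV MeasureTheory Pool.Agent.W424.NC

/-- the truncated moment dominates the finite-volume moment -/
theorem tmom_ge {p : unitInterval} {r : ℕ} (hr : 1 ≤ r) (k : ℕ) :
    ENNReal.ofReal (Ex (fun _ => (p:ℝ)) (boxE (3 * (5 * r))) (fun F => VF r F ^ k *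
      ind (Blk ((5 * r : ℕ) : ℤ) ((3 * (5 * r) : ℕ) : ℤ) F))) ≤ tmom k p := by
  classical
  rw [← lint_ex p _ (f := fun F => VF r F ^ k *
      ind (Blk ((5 * r : ℕ) : ℤ) ((3 * (5 * r) : ℕ) : ℤ) F))
    (fun F => mul_nonneg (pow_nonneg (VF_nonneg _ _) _) (ind_nonneg _))]
  unfold tmom
  apply lintegral_mono
  intro ω
  simp only
  obtain ⟨F, hF⟩ : ∃ F, F = FF (boxE (3 * (5 * r))) ω := ⟨_, rfl⟩
  rw [← hF]
  by_cases hD : Blk ((5 * r : ℕ) : ℤ) ((3 * (5 * r) : ℕ) : ℤ) F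
  swap
  · rw [ind_not_of hD, mul_zero, ENNReal.ofReal_zero]
    exact zero_le
  rw [ind_of hD, mul_one]
  have hna : ¬ Arm (3 * (5 * r)) F := by
    rintro ⟨v, hv, hr'⟩
    refine not_blk_of_arm (R1 := ((5 * r : ℕ) : ℤ)) (R2 := ((3 * (5 * r) : ℕ) : ℤ))
      (by positivity) (by push_cast; omega) (hr'.mono Set.inter_subset_left) ?_ hD
    unfold onB at hv
    omega
  rw [hF] at hna
  obtain ⟨hfin, -⟩ := clus_le (Finset.Subset.refl _) hna
  rw [if_pos hfin]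
  have h2 : (↑((farB r).filter (fun x => TP x (F ∩ boxE (5 * r)))) : Set Vtx) ⊆ cluster0 ω := by
    intro x hx
    rw [Finset.mem_coe, Finset.mem_filter] at hx
    have h3 : Reach (↑(F ∩ boxE (5 * r)) : Set Edg) (0, 0) x := hx.2
    refine (open_reach ω _ _).mpr (h3.mono ?_)
    intro e he
    rw [Finset.mem_coe, Finset.mem_inter, hF] at he
    have := he.1
    rw [← Finset.mem_coe, FF_coe] at this
    exact this.1
  have h3 := Set.ncard_le_ncard h2 hfin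
  rw [Set.ncard_coe_finset] at h3
  have h4 : (((farB r).filter (fun x => TP x (F ∩ boxE (5 * r)))).card : ℝ) = VF r F := by
    unfold VF
    rw [Finset.card_filter]
    push_cast
    apply Finset.sum_congr rfl
    intro x _
    unfold ind
    rfl
  have h5 : VF r F ≤ ((cluster0 ω).ncard : ℝ) := by
    rw [← h4]
    exact_mod_cast h3
  have h6 : VF r F ^ k ≤ ((cluster0 ω).ncard : ℝ) ^ k := pow_le_pow_left₀ (VF_nonneg _ _) h5 k
  refine (ENNReal.ofReal_le_ofReal h6).trans (le_of_eq ?_)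
  rw [ENNReal.ofReal_pow (Nat.cast_nonneg _), ENNReal.ofReal_natCast]

theorem Pr_empty {q : ℝ} (h0 : 0 ≤ q) (h1 : q ≤ 1) (S : Finset Edg) {A : Finset Edg → Prop}
    (hA : A ∅) : (1 - q)^(S.card) ≤ Pr (fun _ => q) S A := by
  unfold Pr Ex
  have h : (∏ e ∈ (∅ : Finset Edg), q) * (∏ e ∈ S \ ∅, (1 - q)) * ind (A ∅) ≤
      ∑ F ∈ S.powerset, (∏ e ∈ F, q) * (∏ e ∈ S \ F, (1 - q)) * ind (A F) := by
    refine Finset.single_le_sum (f := fun F => (∏ e ∈ F, q) * (∏ e ∈ S \ F, (1 - q)) * ind (A F))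
      (fun F _ => ?_) (Finset.empty_mem_powerset S)
    apply mul_nonneg (mul_nonneg (Finset.prod_nonneg fun _ _ => h0)
      (Finset.prod_nonneg fun _ _ => by linarith)) (ind_nonneg _)
  rw [ind_of hA, mul_one, Finset.sdiff_empty, Finset.prod_empty, one_mul, Finset.prod_const] at h
  exact h

/-- the trivial lower bound -/
theorem tmom_triv : ∃ c : ℝ, 0 < c ∧ ∀ (p : unitInterval) (k : ℕ), (p:ℝ) ≤ 3/4 →
    ENNReal.ofReal c ≤ tmom k p := by
  classical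
  refine ⟨(1/4 : ℝ) ^ (boxE 1).card, by positivity, ?_⟩
  intro p k hp
  have hp0 : (0:ℝ) ≤ p := p.2.1
  have hp1 : (p:ℝ) ≤ 1 := p.2.2
  have h1 : (1 - (p:ℝ)) ^ (boxE 1).card ≤ Pr (fun _ => (p:ℝ)) (boxE 1) (fun F => ¬ Arm 1 F) := by
    apply Pr_empty hp0 hp1
    rintro ⟨v, hv, hr⟩
    have h2 : v = (0, 0) := by
      rcases Relation.ReflTransGen.cases_tail hr with h | ⟨c, _, hs⟩
      · exact h
      · obtain ⟨e, he, _⟩ := hs
        simp at he
    rw [h2] at hv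
    unfold onB inR at hv
    simp at hv
  have h2 : (1/4 : ℝ) ^ (boxE 1).card ≤ (1 - (p:ℝ)) ^ (boxE 1).card :=
    pow_le_pow_left₀ (by norm_num) (by linarith) _
  refine (ENNReal.ofReal_le_ofReal (h2.trans h1)).trans ?_
  have e : Pr (fun _ => (p:ℝ)) (boxE 1) (fun F => ¬ Arm 1 F) =
      Ex (fun _ => (p:ℝ)) (boxE 1) (fun F => ind (¬ Arm 1 F)) := rfl
  rw [e, ← lint_ex p _ (f := fun F => ind (¬ Arm 1 F)) (fun F => ind_nonneg _)]
  unfold tmom
  apply lintegral_mono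
  intro ω
  simp only
  by_cases h : Arm 1 (FF (boxE 1) ω)
  · rw [ind_not_of (not_not.2 h), ENNReal.ofReal_zero]
    exact zero_le
  · rw [ind_of h, ENNReal.ofReal_one]
    obtain ⟨hfin, -⟩ := clus_le (Finset.Subset.refl _) h
    rw [if_pos hfin]
    apply one_le_pow₀
    have h3 : ({((0, 0) : Vtx)} : Set Vtx) ⊆ cluster0 ω := by
      intro x hx
      rw [Set.mem_singleton_iff] at hx
      rw [hx]
      exact (open_reach ω _ _).mpr (Reach.refl _ _)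
    have h4 := Set.ncard_le_ncard h3 hfin
    rw [Set.ncard_singleton] at h4
    exact_mod_cast h4

/-- lower bound at a scale of the window -/
theorem tmom_scale (k : ℕ) (hk : 1 ≤ k) : ∃ b c : ℝ, 0 < b ∧ 0 < c ∧
    ∀ (p : unitInterval) (r : ℕ), 1 ≤ r → |(p:ℝ) - 1/2| ≤ b * (r:ℝ) ^ (-(3/4 : ℝ)) →
      ENNReal.ofReal (c * (r:ℝ) ^ ((91 * (k:ℝ) - 5) / 48)) ≤ tmom k p := by
  obtain ⟨m, hm⟩ : ∃ m, k = m + 1 := ⟨k - 1, by omega⟩
  obtain ⟨κ, b, hκ, hb, hst⟩ := armS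
  obtain ⟨cc, Cc, hcc, hCc, harm⟩ := Pool.Agent.W424.NC.arm_crit
  obtain ⟨c1, hc1⟩ : ∃ c1 : ℝ, c1 = (cc / 48) ^ 2 * κ ^ 4 := ⟨_, rfl⟩
  obtain ⟨c2, hc2⟩ : ∃ c2 : ℝ, c2 = 6 * Cc := ⟨_, rfl⟩
  have hc10 : 0 < c1 := by rw [hc1]; positivity
  have hc20 : 0 < c2 := by rw [hc2]; positivity
  refine ⟨b / 8, κ ^ 4 * (c1 * (c1 / c2) ^ m), by positivity, by positivity, ?_⟩
  intro p r hr hpr
  have hp0 : (0:ℝ) ≤ p := p.2.1
  have hp1 : (p:ℝ) ≤ 1 := p.2.2
  have hr0 : (0:ℝ) < r := by exact_mod_cast hr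
  have h16 : |(p:ℝ) - 1/2| ≤ b * ((16 * r : ℕ) : ℝ) ^ (-(3/4 : ℝ)) := by
    refine hpr.trans (le_of_eq ?_)
    push_cast
    rw [Real.mul_rpow (by norm_num) hr0.le]
    have : (16:ℝ) ^ (-(3/4 : ℝ)) = 1 / 8 := by
      rw [show (16:ℝ) = 2 ^ (4:ℝ) by norm_num, ← Real.rpow_mul (by norm_num)]
      norm_num
    rw [this]; ring
  obtain ⟨hW, -, hA1⟩ := hst (16 * r) (by omega) p h16
  obtain ⟨l, hl⟩ : ∃ l : ℝ, l = (r:ℝ) ^ (-(5/48) : ℝ) := ⟨_, rfl⟩
  have hl0 : 0 < l := by rw [hl]; exact Real.rpow_pos_of_pos hr0 _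
  -- lower bound for the arms
  have hlow : cc / 48 * l ≤ arm p (16 * r) := by
    have h1 := (harm (16 * r) (by omega)).1
    have h2 : 1 / 16 * l ≤ ((16 * r : ℕ) : ℝ) ^ (-(5/48) : ℝ) := by
      push_cast
      rw [Real.mul_rpow (by norm_num) hr0.le, ← hl]
      apply mul_le_mul_of_nonneg_right _ hl0.le
      calc (1:ℝ)/16 = (16:ℝ)^(-1:ℝ) := by rw [Real.rpow_neg_one]; norm_num
        _ ≤ (16:ℝ)^(-(5/48) : ℝ) :=
            Real.rpow_le_rpow_of_exponent_le (by norm_num) (by norm_num)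
    have h3 := mul_le_mul_of_nonneg_left h2 hcc.le
    nlinarith
  have hTP : ∀ x ∈ farB r, (cc / 48 * l) ^ 2 * κ ^ 4 ≤
      Pr (fun _ => (p:ℝ)) (boxE (5 * r)) (TP x) := by
    intro x hx
    have t := two_point hp0 hp1 (r := r) (by omega) (mem_farB hx).1 (Finset.Subset.refl _)
    refine le_trans ?_ t
    have a1 : cc / 48 * l ≤ arm p (3 * r) := hlow.trans (arm_anti hp0 hp1 (by omega))
    have a2 : cc / 48 * l ≤ arm p (4 * r) := hlow.trans (arm_anti hp0 hp1 (by omega))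
    have a3 : κ ≤ hh p ((6 * r : ℕ) : ℤ) ((2 * r : ℕ) : ℤ) := by
      have h := hW.pri (2 * r) (by omega) (by omega)
      refine h.trans (hh_mono hp0 hp1 (by push_cast; omega) (by push_cast; omega) le_rfl)
    have b1 : (cc / 48 * l) * (cc / 48 * l) ≤ arm p (3 * r) * arm p (4 * r) :=
      mul_le_mul a1 a2 (by positivity) (arm_nonneg hp0 hp1 _)
    have b2 := pow_le_pow_left₀ hκ.le a3 4
    rw [sq]
    exact mul_le_mul b1 b2 (by positivity)
      (mul_nonneg (arm_nonneg hp0 hp1 _) (arm_nonneg hp0 hp1 _))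
  have hsum : c1 * ((r:ℝ) ^ 2 * l ^ 2) ≤
      ∑ x ∈ farB r, Pr (fun _ => (p:ℝ)) (boxE (5 * r)) (TP x) := by
    have h1 := Finset.sum_le_sum hTP
    rw [Finset.sum_const, nsmul_eq_mul] at h1
    refine le_trans ?_ h1
    have h2 := mul_le_mul_of_nonneg_right (farB_card r)
      (by positivity : 0 ≤ (cc / 48 * l) ^ 2 * κ ^ 4)
    refine le_trans (le_of_eq ?_) h2
    rw [hc1]; ring
  -- upper bound for the arm
  have hup : arm p ((r + 1) / 2) ≤ c2 * l := by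
    obtain ⟨h, hh'⟩ : ∃ h : ℕ, h = (r + 1) / 2 := ⟨_, rfl⟩
    rw [← hh']
    have hh1 : 1 ≤ h := by omega
    have hh0 : (0:ℝ) < h := by exact_mod_cast hh1
    have hhr : (r:ℝ) / 2 ≤ h := by
      have : r ≤ 2 * h := by omega
      have h2 : (r:ℝ) ≤ ((2 * h : ℕ) : ℝ) := by exact_mod_cast this
      push_cast at h2
      linarith
    have hwin : |(p:ℝ) - 1/2| ≤ b * (h:ℝ) ^ (-(3/4 : ℝ)) := by
      refine h16.trans ?_
      apply mul_le_mul_of_nonneg_left _ hb.le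
      apply Real.rpow_le_rpow_of_nonpos hh0 _ (by norm_num)
      have : h ≤ 16 * r := by omega
      exact_mod_cast this
    have h2 := (hst h hh1 p hwin).2.1
    have h3 := (harm h hh1).2
    have h4 : (h:ℝ) ^ (-(5/48) : ℝ) ≤ 2 * l := by
      calc (h:ℝ) ^ (-(5/48) : ℝ) ≤ ((r:ℝ) / 2) ^ (-(5/48) : ℝ) :=
            Real.rpow_le_rpow_of_nonpos (by positivity) hhr (by norm_num)
        _ = l * 2 ^ (5/48 : ℝ) := by
            rw [Real.div_rpow hr0.le (by norm_num), div_eq_mul_inv, ← Real.rpow_neg (by norm_num),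
              neg_neg, hl]
        _ ≤ l * 2 := by
            apply mul_le_mul_of_nonneg_left _ hl0.le
            calc (2:ℝ)^(5/48 : ℝ) ≤ (2:ℝ)^(1:ℝ) :=
                  Real.rpow_le_rpow_of_exponent_le (by norm_num) (by norm_num)
              _ = 2 := Real.rpow_one _
        _ = 2 * l := mul_comm _ _
    have h5 := mul_le_mul_of_nonneg_left h4 hCc.le
    rw [hc2]
    linarith
  have hfin := mom_ge hp0 hp1 hr m (mu := c1 * ((r:ℝ) ^ 2 * l ^ 2)) (rho' := c2 * l)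
    (by positivity) (by positivity) hsum hup
  have hblk : κ ^ 4 ≤ Pr (fun _ => (p:ℝ)) (boxE (3 * (5 * r)))
      (Blk ((5 * r : ℕ) : ℤ) ((3 * (5 * r) : ℕ) : ℤ)) := by
    apply pr_blk_ge hp0 hp1 hκ.le (by omega) _ (annE_sub _ _)
    have h1 := hW.dua (2 * (5 * r) - 1) (by omega) (by omega)
    refine h1.trans (hh_mono (by linarith) (by linarith) (by positivity) ?_ ?_)
    · push_cast [Nat.cast_sub (show 1 ≤ 2 * (5 * r) by omega)]
      omega
    · push_cast [Nat.cast_sub (show 1 ≤ 2 * (5 * r) by omega)]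
      omega
  refine le_trans (ENNReal.ofReal_le_ofReal ?_) (by rw [hm]; exact tmom_ge hr (m + 1))
  refine le_trans ?_ hfin
  refine le_trans (le_of_eq ?_) (mul_le_mul_of_nonneg_right hblk (by positivity))
  have e1 : c1 * ((r:ℝ) ^ 2 * l ^ 2) / (c2 * l) = (c1 / c2) * ((r:ℝ) ^ 2 * l) := by
    field_simp
  rw [e1, mul_pow]
  have e2 : (r:ℝ) ^ ((91 * (k:ℝ) - 5) / 48) = ((r:ℝ) ^ 2 * l ^ 2) * ((r:ℝ) ^ 2 * l) ^ m := by
    rw [hl, ← Real.rpow_natCast ((r:ℝ) ^ (-(5/48) : ℝ)) 2, ← Real.rpow_mul hr0.le,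
      ← Real.rpow_natCast (r:ℝ) 2, ← Real.rpow_add hr0, ← Real.rpow_add hr0,
      ← Real.rpow_natCast _ m, ← Real.rpow_mul hr0.le, ← Real.rpow_add hr0]
    congr 1
    rw [hm]
    push_cast
    ring
  rw [e2]
  ring

/-- Truncated moments: lower bound on both sides of the critical point. -/
theorem tmom_low (k : ℕ) (hk : 1 ≤ k) : ∃ c : ℝ, 0 < c ∧ ∀ p : unitInterval,
    (p:ℝ) ≠ 1/2 → (p:ℝ) ≤ 3/4 →
    ENNReal.ofReal (c * |(p:ℝ) - 1/2| ^ (-((91 * (k:ℝ) - 5) / 36) : ℝ)) ≤ tmom k p := by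
  obtain ⟨b, c, hb, hc, hsc⟩ := tmom_scale k hk
  obtain ⟨c3, hc3, htriv⟩ := tmom_triv
  obtain ⟨e, he⟩ : ∃ e : ℝ, e = (91 * (k:ℝ) - 5) / 48 := ⟨_, rfl⟩
  have he0 : 0 < e := by
    have : (1:ℝ) ≤ k := by exact_mod_cast hk
    rw [he]; linarith
  have he2 : (91 * (k:ℝ) - 5) / 36 = 4/3 * e := by rw [he]; ring
  rw [← he] at hsc
  rw [he2]
  have hD : 0 < c * ((b ^ (4/3 : ℝ) / 2) ^ e) := by positivity
  have hE : 0 < c3 * b ^ (4/3 * e) := by positivity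
  refine ⟨min (c * ((b ^ (4/3 : ℝ) / 2) ^ e)) (c3 * b ^ (4/3 * e)), lt_min hD hE, ?_⟩
  intro p hp hp34
  obtain ⟨s, hs⟩ : ∃ s : ℝ, s = |(p:ℝ) - 1/2| := ⟨_, rfl⟩
  have hs0 : 0 < s := by rw [hs]; exact abs_pos.2 (sub_ne_zero.2 hp)
  rw [← hs]
  have hsp : 0 < s ^ (-(4/3 * e) : ℝ) := Real.rpow_pos_of_pos hs0 _
  obtain ⟨x, hx⟩ : ∃ x : ℝ, x = (b / s) ^ (4/3 : ℝ) := ⟨_, rfl⟩
  have hx0 : 0 < x := by rw [hx]; positivity
  rcases lt_or_ge x 1 with hx1 | hx1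
  · -- the trivial bound
    refine le_trans (ENNReal.ofReal_le_ofReal ?_) (htriv p k hp34)
    have h1 : b < s := by
      by_contra h
      push Not at h
      have : 1 ≤ b / s := by rw [le_div_iff₀ hs0]; linarith
      have := Real.one_le_rpow this (by norm_num : (0:ℝ) ≤ 4/3)
      rw [← hx] at this
      linarith
    have h2 : s ^ (-(4/3 * e) : ℝ) ≤ b ^ (-(4/3 * e) : ℝ) :=
      Real.rpow_le_rpow_of_nonpos hb h1.le (by linarith)
    calc min (c * ((b ^ (4/3 : ℝ) / 2) ^ e)) (c3 * b ^ (4/3 * e)) * s ^ (-(4/3 * e) : ℝ)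
        ≤ (c3 * b ^ (4/3 * e)) * b ^ (-(4/3 * e) : ℝ) :=
          mul_le_mul (min_le_right _ _) h2 hsp.le hE.le
      _ = c3 := by
          rw [mul_assoc, ← Real.rpow_add hb, add_neg_cancel, Real.rpow_zero, mul_one]
  · obtain ⟨r, hr⟩ : ∃ r : ℕ, r = ⌊x⌋₊ := ⟨_, rfl⟩
    have hr1 : 1 ≤ r := by rw [hr]; exact Nat.le_floor (by exact_mod_cast hx1)
    have hr0 : (0:ℝ) < r := by exact_mod_cast hr1
    have hr1' : (1:ℝ) ≤ r := by exact_mod_cast hr1
    have hrx : (r:ℝ) ≤ x := by rw [hr]; exact Nat.floor_le hx0.le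
    have hxr : x / 2 ≤ r := by
      have := Nat.lt_floor_add_one x
      rw [← hr] at this
      linarith
    have hwin : |(p:ℝ) - 1/2| ≤ b * (r:ℝ) ^ (-(3/4 : ℝ)) := by
      rw [← hs]
      have h5 : (r:ℝ) ^ (3/4 : ℝ) ≤ b / s := by
        calc (r:ℝ) ^ (3/4 : ℝ) ≤ x ^ (3/4 : ℝ) := Real.rpow_le_rpow hr0.le hrx (by norm_num)
          _ = b / s := by
              rw [hx, ← Real.rpow_mul (by positivity)]
              norm_num
      rw [le_div_iff₀ hs0] at h5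
      rw [Real.rpow_neg hr0.le, ← div_eq_mul_inv, le_div_iff₀ (by positivity)]
      linarith
    refine le_trans (ENNReal.ofReal_le_ofReal ?_) (hsc p r hr1 hwin)
    have h6 : (x / 2) ^ e ≤ (r:ℝ) ^ e := Real.rpow_le_rpow (by positivity) hxr he0.le
    have h7 : (x / 2) ^ e = (b ^ (4/3 : ℝ) / 2) ^ e * s ^ (-(4/3 * e) : ℝ) := by
      have : x / 2 = (b ^ (4/3 : ℝ) / 2) * s ^ (-(4/3) : ℝ) := by
        rw [hx, Real.div_rpow hb.le hs0.le, Real.rpow_neg hs0.le]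
        ring
      rw [this, Real.mul_rpow (by positivity) (by positivity), ← Real.rpow_mul hs0.le]
      congr 2
      ring
    calc min (c * ((b ^ (4/3 : ℝ) / 2) ^ e)) (c3 * b ^ (4/3 * e)) * s ^ (-(4/3 * e) : ℝ)
        ≤ (c * ((b ^ (4/3 : ℝ) / 2) ^ e)) * s ^ (-(4/3 * e) : ℝ) :=
          mul_le_mul_of_nonneg_right (min_le_left _ _) hsp.le
      _ = c * (x / 2) ^ e := by rw [h7]; ring
      _ ≤ _ := mul_le_mul_of_nonneg_left h6 hc.le

end Pool.Agent.U167.GE
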