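import Pool.Agent.U167.GE.Add
import Pool.Agent.H974R2.Sus

/-!
Moments of the number of points of a box connected to the origin.
-/

set_option autoImplicit false

namespace Pool.Agent.U167.GE

open Finset H974 H362P Pool.Agent.H160R2.CV
open Pool.Agent.H160R2.CV.Quad (LocE IncA bo LA)

/-- the number of points of `B` connected to the origin -/
noncomputable def VB (B : Finset Vtx) (F : Finset Edg) : ℝ := ∑ x ∈ B, ind (TP x F)

theorem VB_nonneg (B : Finset Vtx) (F : Finset Edg) : 0 ≤ VB B F :=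
  Finset.sum_nonneg fun _ _ => ind_nonneg _

theorem cn_insert {X : Finset Vtx} (h0 : ((0, 0) : Vtx) ∈ X) (x : Vtx) (F : Finset Edg) :
    ind (Cn X (↑F : Set Edg)) * ind (TP x F) = ind (Cn (insert x X) (↑F : Set Edg)) := by
  classical
  rw [← ind_and]
  apply ind_congr
  constructor
  · rintro ⟨h1, h2⟩
    have key : ∀ u ∈ insert x X, Reach (↑F : Set Edg) (0, 0) u := by
      intro u hu
      rw [Finset.mem_insert] at hu
      rcases hu with rfl | hu
      · exact h2
      · exact h1 _ h0 _ hu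
    intro u hu v hv
    exact (key u hu).symm.trans (key v hv)
  · intro h
    exact ⟨fun u hu v hv => h u (Finset.mem_insert_of_mem hu) v (Finset.mem_insert_of_mem hv),
      h _ (Finset.mem_insert_of_mem h0) _ (Finset.mem_insert_self _ _)⟩

/-- the mixed moments -/
noncomputable def W (q : ℝ) (S : Finset Edg) (B X : Finset Vtx) (m : ℕ) : ℝ :=
  Ex (fun _ => q) S (fun F => ind (Cn X (↑F : Set Edg)) * VB B F ^ m)

theorem W_zero (q : ℝ) (S : Finset Edg) (B X : Finset Vtx) :
    W q S B X 0 = Pr (fun _ => q) S (fun F => Cn X (↑F : Set Edg)) := by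
  unfold W Pr
  congr 1
  funext F
  rw [pow_zero, mul_one]

theorem W_succ (q : ℝ) (S : Finset Edg) (B : Finset Vtx) {X : Finset Vtx}
    (h0 : ((0, 0) : Vtx) ∈ X) (m : ℕ) :
    W q S B X (m + 1) = ∑ x ∈ B, W q S B (insert x X) m := by
  classical
  unfold W
  rw [← Ex_sum]
  congr 1
  funext F
  rw [pow_succ, ← mul_assoc]
  conv_lhs => rw [VB.eq_def B F]
  rw [Finset.mul_sum]
  apply Finset.sum_congr rfl
  intro x _
  rw [← cn_insert h0]
  have : VB B F = ∑ x ∈ B, ind (TP x F) := rfl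
  rw [this]
  ring

/-- the sum of arm probabilities over a box -/
noncomputable def SA (q : ℝ) (n : ℕ) : ℝ := ∑ u ∈ bx n, arm q (nv u / 3)

theorem mem_bx {n : ℕ} {u : Vtx} : u ∈ bx n ↔ nv u ≤ n := by
  unfold bx nv
  rw [Finset.mem_product, Finset.mem_Icc, Finset.mem_Icc]
  omega

theorem nv_sub_le (u v : Vtx) : nv (u - v) ≤ nv u + nv v := by
  unfold nv
  simp only [Prod.fst_sub, Prod.snd_sub]
  omega

theorem SA_shift {q : ℝ} (h0 : 0 ≤ q) (h1 : q ≤ 1) {R : ℕ} {y : Vtx} (hy : nv y ≤ R) :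
    ∑ x ∈ bx R, arm q (nv (y - x) / 3) ≤ SA q (2 * R) := by
  classical
  have hinj : Set.InjOn (fun x : Vtx => y - x) (↑(bx R) : Set Vtx) := by
    intro a _ b _ h
    simpa using h
  have e := Finset.sum_image (f := fun u : Vtx => arm q (nv u / 3)) hinj
  rw [← e]
  unfold SA
  apply Finset.sum_le_sum_of_subset_of_nonneg
  · intro u hu
    rw [Finset.mem_image] at hu
    obtain ⟨x, hx, rfl⟩ := hu
    rw [mem_bx] at hx ⊢
    have := nv_sub_le y x
    omega
  · intro u _ _
    exact arm_nonneg h0 h1 _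

theorem SA_nonneg {q : ℝ} (h0 : 0 ≤ q) (h1 : q ≤ 1) (n : ℕ) : 0 ≤ SA q n :=
  Finset.sum_nonneg fun _ _ => arm_nonneg h0 h1 _

/-- adding one point -/
theorem cn_add {q : ℝ} (h0 : 1 / 2 ≤ q) (h1 : q ≤ 1) {R : ℕ} {X : Finset Vtx}
    (hX : X.Nonempty) (hXR : ∀ u ∈ X, nv u ≤ R) {x : Vtx} (hx : nv x ≤ R)
    {S : Finset Edg} (hS : boxE (3 * R) ⊆ S) :
    Pr (fun _ => q) S (fun F => Cn (insert x X) (↑F)) ≤
      ∑ y ∈ X, 2 ^ 188 * arm q (nv (y - x) / 3) * Pr (fun _ => q) S (fun F => Cn X (↑F)) := by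
  classical
  have hq0 : 0 ≤ q := by linarith
  have ok : Ok (fun _ : Edg => q) := okq hq0 h1
  obtain ⟨y, hy, hmin⟩ := Finset.exists_min_image X (fun u => nv (u - x)) hX
  have hP : 0 ≤ Pr (fun _ => q) S (fun F => Cn X (↑F)) := Pr_nonneg ok _ _
  have hterm : ∀ z ∈ X, 0 ≤ 2 ^ 188 * arm q (nv (z - x) / 3) *
      Pr (fun _ => q) S (fun F => Cn X (↑F)) := by
    intro z _
    exact mul_nonneg (mul_nonneg (by positivity) (arm_nonneg hq0 h1 _)) hP
  refine le_trans ?_ (Finset.single_le_sum hterm hy)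
  obtain ⟨d, hd⟩ : ∃ d : ℕ, d = nv (y - x) := ⟨_, rfl⟩
  rw [← hd]
  have hd2 : d ≤ 2 * R := by
    have := nv_sub_le y x
    have := hXR y hy
    omega
  rcases Nat.eq_zero_or_pos (d / 3) with h3 | h3
  · rw [h3, arm_zero, mul_one]
    have : Pr (fun _ => q) S (fun F => Cn (insert x X) (↑F)) ≤
        Pr (fun _ => q) S (fun F => Cn X (↑F)) := by
      apply Pr_mono ok
      intro F _ h u hu v hv
      exact h u (Finset.mem_insert_of_mem hu) v (Finset.mem_insert_of_mem hv)
    have h2 : (1:ℝ) ≤ 2 ^ 188 := one_le_pow₀ (by norm_num)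
    nlinarith
  · have h5 := add_point h0 h1 (X := X) (x := x) (y := y) (r := d / 3) hy h3
      (fun u hu => by
        have := hmin u hu
        rw [← hd] at this
        omega) (S := S)
      (by
        refine Finset.Subset.trans ?_ hS
        unfold bo boxE
        unfold nv at hx
        apply RE_subset <;> push_cast <;> omega)
    rw [mul_assoc]
    exact h5

/-- the moment bound -/
theorem W_le {q : ℝ} (h0 : 1 / 2 ≤ q) (h1 : q ≤ 1) {R : ℕ} {S : Finset Edg}
    (hS : boxE (3 * R) ⊆ S) (m : ℕ) : ∀ X : Finset Vtx, ((0, 0) : Vtx) ∈ X →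
      (∀ u ∈ X, nv u ≤ R) →
      W q S (bx R) X m ≤ (2 ^ 188 * SA q (2 * R)) ^ m * ((X.card : ℝ) + m) ^ m *
        Pr (fun _ => q) S (fun F => Cn X (↑F)) := by
  classical
  have hq0 : 0 ≤ q := by linarith
  have ok : Ok (fun _ : Edg => q) := okq hq0 h1
  have hSA := SA_nonneg hq0 h1 (2 * R)
  obtain ⟨Φ, hΦ⟩ : ∃ Φ : ℝ, Φ = 2 ^ 188 * SA q (2 * R) := ⟨_, rfl⟩
  have hΦ0 : 0 ≤ Φ := by rw [hΦ]; positivity
  rw [← hΦ]
  induction m with
  | zero =>
    intro X _ _
    rw [W_zero, pow_zero, pow_zero, one_mul, one_mul]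
  | succ m ih =>
    intro X hX0 hXR
    rw [W_succ q S _ hX0]
    have hP : 0 ≤ Pr (fun _ => q) S (fun F => Cn X (↑F)) := Pr_nonneg ok _ _
    have hc : ∀ x : Vtx, ((insert x X).card : ℝ) + m ≤ (X.card : ℝ) + (m + 1 : ℕ) := by
      intro x
      have := Finset.card_insert_le x X
      have h2 : ((insert x X).card : ℝ) ≤ ((X.card + 1 : ℕ) : ℝ) := by exact_mod_cast this
      push_cast at h2 ⊢
      linarith
    have h3 : ∀ x ∈ bx R, W q S (bx R) (insert x X) m ≤
        Φ ^ m * ((X.card : ℝ) + (m + 1 : ℕ)) ^ m *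
          ∑ y ∈ X, 2 ^ 188 * arm q (nv (y - x) / 3) *
            Pr (fun _ => q) S (fun F => Cn X (↑F)) := by
      intro x hx
      rw [mem_bx] at hx
      refine (ih (insert x X) (Finset.mem_insert_of_mem hX0) ?_).trans ?_
      · intro u hu
        rw [Finset.mem_insert] at hu
        rcases hu with rfl | hu
        · exact hx
        · exact hXR u hu
      · apply mul_le_mul
        · apply mul_le_mul_of_nonneg_left _ (by positivity)
          exact pow_le_pow_left₀ (by positivity) (hc x) m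
        · exact cn_add h0 h1 ⟨_, hX0⟩ hXR hx hS
        · exact Pr_nonneg ok _ _
        · positivity
    refine (Finset.sum_le_sum h3).trans ?_
    rw [← Finset.mul_sum, Finset.sum_comm]
    have h4 : ∀ y ∈ X, ∑ x ∈ bx R, 2 ^ 188 * arm q (nv (y - x) / 3) *
        Pr (fun _ => q) S (fun F => Cn X (↑F)) ≤
        Φ * Pr (fun _ => q) S (fun F => Cn X (↑F)) := by
      intro y hy
      rw [← Finset.sum_mul, ← Finset.mul_sum, hΦ]
      apply mul_le_mul_of_nonneg_right _ hP
      apply mul_le_mul_of_nonneg_left _ (by positivity)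
      exact SA_shift hq0 h1 (hXR y hy)
    have h5 := Finset.sum_le_sum h4
    rw [Finset.sum_const, nsmul_eq_mul] at h5
    have hK : 0 ≤ Φ ^ m * ((X.card : ℝ) + (m + 1 : ℕ)) ^ m := by positivity
    refine (mul_le_mul_of_nonneg_left h5 hK).trans ?_
    have h6 : (X.card : ℝ) ≤ (X.card : ℝ) + (m + 1 : ℕ) := by
      have : (0:ℝ) ≤ ((m + 1 : ℕ) : ℝ) := by positivity
      linarith
    calc Φ ^ m * ((X.card : ℝ) + (m + 1 : ℕ)) ^ m *
          ((X.card : ℝ) * (Φ * Pr (fun _ => q) S (fun F => Cn X (↑F))))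
        = Φ ^ (m + 1) * ((X.card : ℝ) + (m + 1 : ℕ)) ^ m * (X.card : ℝ) *
            Pr (fun _ => q) S (fun F => Cn X (↑F)) := by ring
      _ ≤ Φ ^ (m + 1) * ((X.card : ℝ) + (m + 1 : ℕ)) ^ m *
          ((X.card : ℝ) + (m + 1 : ℕ)) * Pr (fun _ => q) S (fun F => Cn X (↑F)) := by
          apply mul_le_mul_of_nonneg_right _ hP
          exact mul_le_mul_of_nonneg_left h6 (by positivity)
      _ = _ := by rw [pow_succ ((X.card : ℝ) + (m + 1 : ℕ)) m]; ring

/-- the sum of squares of arm probabilities -/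
noncomputable def SB (q : ℝ) (n : ℕ) : ℝ := ∑ u ∈ bx n, arm q (nv u / 3) ^ 2

/-- moments of the volume in a box -/
theorem mom_le {q : ℝ} (h0 : 1 / 2 ≤ q) (h1 : q ≤ 1) {R : ℕ} {S : Finset Edg}
    (hS : boxE (3 * R) ⊆ S) (m : ℕ) :
    Ex (fun _ => q) S (fun F => VB (bx R) F ^ (m + 1)) ≤
      (2 ^ 188 * SA q (2 * R)) ^ m * ((2 : ℝ) + m) ^ m * SB q R := by
  classical
  have hq0 : 0 ≤ q := by linarith
  have ok : Ok (fun _ : Edg => q) := okq hq0 h1
  have hSA := SA_nonneg hq0 h1 (2 * R)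
  have e : Ex (fun _ => q) S (fun F => VB (bx R) F ^ (m + 1)) = W q S (bx R) {(0, 0)} (m + 1) := by
    unfold W
    apply Ex_congr
    intro F _
    rw [ind_of, one_mul]
    intro u hu v hv
    rw [Finset.mem_singleton] at hu hv
    rw [hu, hv]
    exact Reach.refl _ _
  rw [e, W_succ q S _ (Finset.mem_singleton_self _)]
  have h3 : ∀ x ∈ bx R, W q S (bx R) (insert x {(0, 0)}) m ≤
      (2 ^ 188 * SA q (2 * R)) ^ m * ((2 : ℝ) + m) ^ m * arm q (nv x / 3) ^ 2 := by
    intro x hx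
    rw [mem_bx] at hx
    refine (W_le h0 h1 hS m (insert x {(0, 0)}) (by simp) ?_).trans ?_
    · intro u hu
      rw [Finset.mem_insert, Finset.mem_singleton] at hu
      rcases hu with rfl | rfl
      · exact hx
      · unfold nv; simp
    · apply mul_le_mul
      · apply mul_le_mul_of_nonneg_left _ (by positivity)
        apply pow_le_pow_left₀ (by positivity)
        have h2 : (((insert x {((0, 0) : Vtx)} : Finset Vtx)).card : ℝ) ≤ ((2 : ℕ) : ℝ) := by
          exact_mod_cast Finset.card_insert_le x {((0, 0) : Vtx)}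
        push_cast at h2
        linarith
      · rcases Nat.eq_zero_or_pos (nv x) with h4 | h4
        · rw [h4, Nat.zero_div, arm_zero, one_pow]
          exact Pr_le_one ok _ _
        · rw [sq]
          apply two_points hq0 h1
          have e2 : x - ((0, 0) : Vtx) = x := by
            ext <;> simp
          rw [e2]
          omega
      · exact Pr_nonneg ok _ _
      · positivity
  refine (Finset.sum_le_sum h3).trans ?_
  rw [← Finset.mul_sum]
  rfl

end Pool.Agent.U167.GE
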