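import Pool.Agent.U167.GE.Mom
import Pool.Agent.H160R2.CV.Ratio

/-!
Moment bounds under an assumption on the one-arm probabilities up to the scale `L`.
-/

set_option autoImplicit false

namespace Pool.Agent.U167.GE

open Finset H974 H362P Pool.Agent.H160R2.CV

/-- one term of the sums -/
theorem term_le {s : ℝ} (hs0 : 0 ≤ s) (hs1 : s ≤ 1) {L n k : ℕ} (hL : 1 ≤ L) (hLn : L ≤ n + 1)
    (hk : k ≤ n) :
    ((k : ℝ) + 1) * ((min (k + 1) L : ℕ) : ℝ) ^ (-s) ≤ ((n : ℝ) + 1) * (L : ℝ) ^ (-s) := by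
  have hL0 : (0:ℝ) < L := by exact_mod_cast hL
  have hkn : (k : ℝ) ≤ n := by exact_mod_cast hk
  rcases le_total L (k + 1) with h | h
  · rw [min_eq_right h]
    apply mul_le_mul_of_nonneg_right _ (Real.rpow_nonneg hL0.le _)
    linarith
  · rw [min_eq_left h]
    have hk0 : (0:ℝ) < (k:ℝ) + 1 := by positivity
    have hkL : (k:ℝ) + 1 ≤ L := by exact_mod_cast h
    have hLn' : (L:ℝ) ≤ (n:ℝ) + 1 := by exact_mod_cast hLn
    push_cast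
    have e1 : ((k:ℝ) + 1) * ((k:ℝ) + 1) ^ (-s) = ((k:ℝ) + 1) ^ (1 - s) := by
      rw [sub_eq_add_neg, Real.rpow_add hk0, Real.rpow_one]
    have e2 : (L:ℝ) * (L:ℝ) ^ (-s) = (L:ℝ) ^ (1 - s) := by
      rw [sub_eq_add_neg, Real.rpow_add hL0, Real.rpow_one]
    rw [e1]
    calc ((k:ℝ) + 1) ^ (1 - s) ≤ (L:ℝ) ^ (1 - s) :=
          Real.rpow_le_rpow hk0.le hkL (by linarith)
      _ = (L:ℝ) * (L:ℝ) ^ (-s) := e2.symm
      _ ≤ _ := mul_le_mul_of_nonneg_right hLn' (Real.rpow_nonneg hL0.le _)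

/-- summation over a box -/
theorem box_sum {s K : ℝ} (hs0 : 0 ≤ s) (hs1 : s ≤ 1) (hK : 0 ≤ K) {L n : ℕ} (hL : 1 ≤ L)
    (hLn : L ≤ n) {g : ℕ → ℝ} (hg0 : ∀ k, 0 ≤ g k)
    (hg : ∀ k, g k ≤ K * ((min (k + 1) L : ℕ) : ℝ) ^ (-s)) :
    ∑ u ∈ bx n, g (nv u) ≤ 32 * K * ((n:ℝ) ^ 2 * (L:ℝ) ^ (-s)) := by
  have hn1 : (1:ℝ) ≤ n := by exact_mod_cast (hL.trans hLn)
  have hL0 : 0 ≤ (L:ℝ) ^ (-s) := Real.rpow_nonneg (Nat.cast_nonneg _) _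
  refine (sum_bx n g hg0).trans ?_
  have h1 : ∀ k ∈ range (n + 1), ((k:ℝ) + 1) * g k ≤ K * (((n:ℝ) + 1) * (L:ℝ) ^ (-s)) := by
    intro k hk
    have hk' : k ≤ n := Nat.lt_succ_iff.1 (Finset.mem_range.1 hk)
    calc ((k:ℝ) + 1) * g k ≤ ((k:ℝ) + 1) * (K * ((min (k + 1) L : ℕ) : ℝ) ^ (-s)) :=
          mul_le_mul_of_nonneg_left (hg k) (by positivity)
      _ = K * (((k:ℝ) + 1) * ((min (k + 1) L : ℕ) : ℝ) ^ (-s)) := by ring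
      _ ≤ _ := mul_le_mul_of_nonneg_left (term_le hs0 hs1 hL (by omega) hk') hK
  have h2 := Finset.sum_le_sum h1
  rw [Finset.sum_const, Finset.card_range, nsmul_eq_mul] at h2
  push_cast at h2
  have h3 : ((n:ℝ) + 1) * (K * (((n:ℝ) + 1) * (L:ℝ) ^ (-s))) ≤
      4 * K * ((n:ℝ) ^ 2 * (L:ℝ) ^ (-s)) := by
    have h4 : ((n:ℝ) + 1) ^ 2 ≤ 4 * (n:ℝ) ^ 2 := by nlinarith
    calc ((n:ℝ) + 1) * (K * (((n:ℝ) + 1) * (L:ℝ) ^ (-s))) =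
          ((n:ℝ) + 1) ^ 2 * (K * (L:ℝ) ^ (-s)) := by ring
      _ ≤ (4 * (n:ℝ) ^ 2) * (K * (L:ℝ) ^ (-s)) :=
          mul_le_mul_of_nonneg_right h4 (mul_nonneg hK hL0)
      _ = _ := by ring
  linarith

/-- the one-arm probabilities at a third of the distance -/
theorem arm_third {q A : ℝ} (h0 : 0 ≤ q) (h1 : q ≤ 1) (hA : 0 ≤ A) {L : ℕ} (hL : 1 ≤ L)
    (harm : ∀ r : ℕ, 1 ≤ r → r ≤ L → arm q r ≤ A * (r:ℝ) ^ (-(5/48) : ℝ)) (k : ℕ) :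
    arm q (k / 3) ≤ (6 * A + 3) * ((min (k + 1) L : ℕ) : ℝ) ^ (-(5/48) : ℝ) := by
  obtain ⟨m, hm⟩ : ∃ m : ℕ, m = min (k + 1) L := ⟨_, rfl⟩
  have hm1 : 1 ≤ m := by rw [hm]; exact le_min (by omega) hL
  have hm0 : (0:ℝ) < m := by exact_mod_cast hm1
  have hp : 0 < (m:ℝ) ^ (-(5/48) : ℝ) := Real.rpow_pos_of_pos hm0 _
  rw [← hm]
  rcases Nat.lt_or_ge k 3 with h3 | h3
  · have e : k / 3 = 0 := by omega
    rw [e, arm_zero]
    have hm3 : (m:ℝ) ≤ 3 := by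
      have : m ≤ 3 := by
        rw [hm]; exact (min_le_left _ _).trans (by omega)
      exact_mod_cast this
    have h4 : (1:ℝ)/3 ≤ (m:ℝ) ^ (-(5/48) : ℝ) := by
      calc (1:ℝ)/3 = (3:ℝ)^(-1:ℝ) := by rw [Real.rpow_neg_one]; norm_num
        _ ≤ (3:ℝ)^(-(5/48) : ℝ) :=
            Real.rpow_le_rpow_of_exponent_le (by norm_num) (by norm_num)
        _ ≤ (m:ℝ)^(-(5/48) : ℝ) :=
            Real.rpow_le_rpow_of_nonpos hm0 hm3 (by norm_num)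
    nlinarith [mul_nonneg hA hp.le]
  · obtain ⟨r, hr⟩ : ∃ r : ℕ, r = min (k / 3) L := ⟨_, rfl⟩
    have hr1 : 1 ≤ r := by rw [hr]; exact le_min (by omega) hL
    have hrL : r ≤ L := by rw [hr]; exact min_le_right _ _
    have hrk : r ≤ k / 3 := by rw [hr]; exact min_le_left _ _
    have h5 := (arm_anti h0 h1 hrk).trans (harm r hr1 hrL)
    have h6 : m ≤ 6 * r := by
      rw [hm, hr]
      omega
    have h7 : (m:ℝ) / 6 ≤ r := by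
      rw [div_le_iff₀ (by norm_num)]
      have : (m:ℝ) ≤ ((6 * r : ℕ) : ℝ) := by exact_mod_cast h6
      push_cast at this
      linarith
    have h8 : (r:ℝ) ^ (-(5/48) : ℝ) ≤ ((m:ℝ) / 6) ^ (-(5/48) : ℝ) :=
      Real.rpow_le_rpow_of_nonpos (by positivity) h7 (by norm_num)
    have h9 : ((m:ℝ) / 6) ^ (-(5/48) : ℝ) ≤ 6 * (m:ℝ) ^ (-(5/48) : ℝ) := by
      rw [Real.div_rpow hm0.le (by norm_num), div_eq_mul_inv, mul_comm]
      apply mul_le_mul_of_nonneg_right _ hp.le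
      rw [← Real.rpow_neg (by norm_num), neg_neg]
      calc (6:ℝ)^(5/48 : ℝ) ≤ (6:ℝ)^(1:ℝ) :=
            Real.rpow_le_rpow_of_exponent_le (by norm_num) (by norm_num)
        _ = 6 := Real.rpow_one _
    calc arm q (k / 3) ≤ A * (r:ℝ) ^ (-(5/48) : ℝ) := h5
      _ ≤ A * (6 * (m:ℝ) ^ (-(5/48) : ℝ)) := mul_le_mul_of_nonneg_left (h8.trans h9) hA
      _ ≤ (6 * A + 3) * (m:ℝ) ^ (-(5/48) : ℝ) := by nlinarith

/-- The moment bound. -/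
theorem mom_bound {A : ℝ} (hA : 0 ≤ A) (m : ℕ) : ∃ C : ℝ, 1 ≤ C ∧ ∀ q : ℝ, 1 / 2 ≤ q → q ≤ 1 →
    ∀ L : ℕ, 1 ≤ L → (∀ r : ℕ, 1 ≤ r → r ≤ L → arm q r ≤ A * (r:ℝ) ^ (-(5/48) : ℝ)) →
    ∀ R : ℕ, L ≤ R → ∀ S : Finset Edg, boxE (3 * R) ⊆ S →
    Ex (fun _ => q) S (fun F => VB (bx R) F ^ (m + 1)) ≤
      C * (((R:ℝ) ^ 2 * (L:ℝ) ^ (-(5/48) : ℝ)) ^ (m + 1) * (L:ℝ) ^ (-(5/48) : ℝ)) := by
  obtain ⟨K, hK⟩ : ∃ K : ℝ, K = 6 * A + 3 := ⟨_, rfl⟩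
  have hK1 : 1 ≤ K := by rw [hK]; linarith
  have hm1 : (1:ℝ) ≤ ((2:ℝ) + m) ^ m := one_le_pow₀ (by linarith [Nat.cast_nonneg (α := ℝ) m])
  have hK2 : (1:ℝ) ≤ (2 ^ 188 * (128 * K)) ^ m := by
    apply one_le_pow₀
    have : (1:ℝ) ≤ 2 ^ 188 := one_le_pow₀ (by norm_num)
    nlinarith
  refine ⟨(2 ^ 188 * (128 * K)) ^ m * ((2:ℝ) + m) ^ m * (32 * K ^ 2), ?_, ?_⟩
  · have h3 : (1:ℝ) ≤ 32 * K ^ 2 := by nlinarith
    have h4 := one_le_mul_of_one_le_of_one_le hK2 hm1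
    exact one_le_mul_of_one_le_of_one_le h4 h3
  intro q h0 h1 L hL harm R hLR S hS
  have hq0 : 0 ≤ q := by linarith
  obtain ⟨l, hl⟩ : ∃ l : ℝ, l = (L:ℝ) ^ (-(5/48) : ℝ) := ⟨_, rfl⟩
  have hl0 : 0 ≤ l := by rw [hl]; exact Real.rpow_nonneg (Nat.cast_nonneg _) _
  have hthird := arm_third hq0 h1 hA hL harm
  rw [← hK] at hthird
  have hSA : SA q (2 * R) ≤ 128 * K * ((R:ℝ) ^ 2 * l) := by
    have := box_sum (s := 5/48) (K := K) (by norm_num) (by norm_num) (by linarith) hL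
      (n := 2 * R) (by omega) (g := fun k => arm q (k / 3)) (fun k => arm_nonneg hq0 h1 _) hthird
    rw [← hl] at this
    unfold SA
    refine this.trans (le_of_eq ?_)
    push_cast
    ring
  have hSB : SB q R ≤ 32 * K ^ 2 * ((R:ℝ) ^ 2 * l ^ 2) := by
    have h2 : ∀ k, arm q (k / 3) ^ 2 ≤ K ^ 2 * ((min (k + 1) L : ℕ) : ℝ) ^ (-(5/24) : ℝ) := by
      intro k
      have h3 := pow_le_pow_left₀ (arm_nonneg hq0 h1 _) (hthird k) 2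
      refine h3.trans (le_of_eq ?_)
      rw [mul_pow, ← Real.rpow_natCast (((min (k + 1) L : ℕ) : ℝ) ^ (-(5/48) : ℝ)),
        ← Real.rpow_mul (Nat.cast_nonneg _)]
      norm_num
    have := box_sum (s := 5/24) (K := K ^ 2) (by norm_num) (by norm_num) (by positivity) hL
      (n := R) hLR (g := fun k => arm q (k / 3) ^ 2) (fun k => by positivity) h2
    have e : (L:ℝ) ^ (-(5/24) : ℝ) = l ^ 2 := by
      rw [hl, ← Real.rpow_natCast ((L:ℝ) ^ (-(5/48) : ℝ)), ← Real.rpow_mul (Nat.cast_nonneg _)]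
      norm_num
    rw [e] at this
    exact this
  have hSA0 := SA_nonneg hq0 h1 (2 * R)
  have hSB0 : 0 ≤ SB q R := Finset.sum_nonneg fun _ _ => by positivity
  rw [← hl]
  refine (mom_le h0 h1 hS m).trans ?_
  have h5 : (2 ^ 188 * SA q (2 * R)) ^ m ≤ (2 ^ 188 * (128 * K * ((R:ℝ) ^ 2 * l))) ^ m :=
    pow_le_pow_left₀ (by positivity) (mul_le_mul_of_nonneg_left hSA (by positivity)) m
  calc (2 ^ 188 * SA q (2 * R)) ^ m * ((2:ℝ) + m) ^ m * SB q R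
      ≤ (2 ^ 188 * (128 * K * ((R:ℝ) ^ 2 * l))) ^ m * ((2:ℝ) + m) ^ m *
          (32 * K ^ 2 * ((R:ℝ) ^ 2 * l ^ 2)) := by
        apply mul_le_mul _ hSB hSB0 (by positivity)
        exact mul_le_mul_of_nonneg_right h5 (by positivity)
    _ = (2 ^ 188 * (128 * K)) ^ m * ((2:ℝ) + m) ^ m * (32 * K ^ 2) *
          (((R:ℝ) ^ 2 * l) ^ (m + 1) * l) := by
        have e : 2 ^ 188 * (128 * K * ((R:ℝ) ^ 2 * l)) =
            (2 ^ 188 * (128 * K)) * ((R:ℝ) ^ 2 * l) := by ring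
        rw [e, mul_pow, pow_succ ((R:ℝ) ^ 2 * l) m]
        ring

end Pool.Agent.U167.GE
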