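import Pool.Agent.U167.GE.Inf

/-!
Upper bounds for the truncated moments.
-/

set_option autoImplicit false
set_option maxHeartbeats 1000000

namespace Pool.Agent.U167.GE

open Finset H974 Pool.Agent.H160R2.CV MeasureTheory

/-- truncated moment of the size of the cluster of the origin -/
noncomputable def tmom (k : ℕ) (p : unitInterval) : ENNReal :=
  open Classical in
  ∫⁻ ω, (if (cluster0 ω).Finite then ((cluster0 ω).ncard : ENNReal) ^ k else 0) ∂(bondLaw p)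

/-- the scales -/
def RR0 (N i : ℕ) : ℕ := 2 * (2 * (2 ^ i * N))

/-- pointwise decomposition -/
theorem point_le {N : ℕ} (hN : 1 ≤ N) (k : ℕ) (ω : sqLattice.edgeSet → Bool) :
    (open Classical in
      if (cluster0 ω).Finite then ((cluster0 ω).ncard : ENNReal) ^ k else 0) ≤
    ENNReal.ofReal (VB (bx (2 * N)) (FF (boxE (3 * (2 * N))) ω) ^ k) +
      ∑' i : ℕ, ENNReal.ofReal (VB (bx (RR0 N i)) (FF (boxE (3 * RR0 N i)) ω) ^ k *
        ind (Shell (2 ^ i * N) (FF (boxE (3 * RR0 N i)) ω))) := by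
  classical
  by_cases hfin : (cluster0 ω).Finite
  swap
  · simp [hfin]
  rw [if_pos hfin]
  have key : ∀ n : ℕ, ∀ S : Finset Edg, boxE n ⊆ S → ¬ Arm n (FF S ω) →
      ((cluster0 ω).ncard : ENNReal) ^ k ≤ ENNReal.ofReal (VB (bx n) (FF S ω) ^ k) := by
    intro n S hS h
    have h1 := (clus_le hS h).2
    have h2 : (((cluster0 ω).ncard : ℝ)) ^ k ≤ VB (bx n) (FF S ω) ^ k :=
      pow_le_pow_left₀ (Nat.cast_nonneg _) h1 k
    refine le_trans (le_of_eq ?_) (ENNReal.ofReal_le_ofReal h2)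
    rw [ENNReal.ofReal_pow (Nat.cast_nonneg _), ENNReal.ofReal_natCast]
  obtain ⟨m, hm⟩ := no_arm hfin
  -- the events do not depend on the ambient set
  have hloc : ∀ n : ℕ, ∀ S S' : Finset Edg, boxE n ⊆ S → boxE n ⊆ S' →
      Arm n (FF S ω) → Arm n (FF S' ω) := by
    rintro n S S' _ hS' ⟨v, hv, hr⟩
    refine ⟨v, hv, hr.mono ?_⟩
    rw [FF_coe, FF_coe]
    rintro e ⟨⟨h1, -⟩, h2⟩
    exact ⟨⟨h1, hS' h2⟩, h2⟩
  by_cases h0 : Arm (2 * N) (FF (boxE (3 * (2 * N))) ω)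
  swap
  · exact (key _ _ (boxE_mono (by omega)) h0).trans le_self_add
  · have hex : ∃ i : ℕ, ¬ Arm (RR0 N i) (FF (boxE (3 * RR0 N i)) ω) := by
      refine ⟨m, hm _ ?_ _⟩
      unfold RR0
      have h1 : m < 2 ^ m := Nat.lt_two_pow_self
      have h2 : 2 ^ m ≤ 2 ^ m * N := Nat.le_mul_of_pos_right _ hN
      omega
    obtain ⟨i, hi⟩ : ∃ i, i = Nat.find hex := ⟨_, rfl⟩
    have h1 : ¬ Arm (RR0 N i) (FF (boxE (3 * RR0 N i)) ω) := by
      rw [hi]; exact Nat.find_spec hex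
    have h2 : Arm (2 * (2 ^ i * N)) (FF (boxE (3 * RR0 N i)) ω) := by
      rcases Nat.eq_zero_or_pos i with h3 | h3
      · rw [h3]
        refine hloc _ _ _ ?_ ?_ (by simpa using h0)
        · exact boxE_mono (by simp; omega)
        · unfold RR0
          exact boxE_mono (by simp; omega)
      · obtain ⟨j, hj⟩ : ∃ j, i = j + 1 := ⟨i - 1, by omega⟩
        have h4 : ¬ ¬ Arm (RR0 N j) (FF (boxE (3 * RR0 N j)) ω) := by
          intro h5
          have := Nat.find_min' hex h5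
          omega
        rw [not_not] at h4
        have e : 2 * (2 ^ i * N) = RR0 N j := by
          unfold RR0
          rw [hj, pow_succ]; ring
        rw [e]
        refine hloc _ _ _ (boxE_mono (by omega)) ?_ h4
        apply boxE_mono
        rw [← e]
        unfold RR0
        omega
    have h3 : Shell (2 ^ i * N) (FF (boxE (3 * RR0 N i)) ω) := ⟨h2, h1⟩
    have h4 := key (RR0 N i) (boxE (3 * RR0 N i)) (boxE_mono (by omega)) h1
    refine le_trans ?_ le_add_self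
    refine le_trans ?_ (ENNReal.le_tsum i)
    rw [ind_of h3, mul_one]
    exact h4

/-- the moments are bounded by a sum -/
theorem tmom_le_sum {N : ℕ} (hN : 1 ≤ N) (k : ℕ) (p : unitInterval) :
    tmom k p ≤ ENNReal.ofReal (Ex (fun _ => (p:ℝ)) (boxE (3 * (2 * N)))
        (fun F => VB (bx (2 * N)) F ^ k)) +
      ∑' i : ℕ, ENNReal.ofReal (Ex (fun _ => (p:ℝ)) (boxE (3 * RR0 N i))
        (fun F => VB (bx (RR0 N i)) F ^ k * ind (Shell (2 ^ i * N) F))) := by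
  classical
  unfold tmom
  refine (lintegral_mono (point_le hN k)).trans ?_
  rw [lintegral_add_left]
  · rw [lintegral_tsum]
    · rw [lint_ex p _ (f := fun F => VB (bx (2 * N)) F ^ k)
        (fun F => pow_nonneg (VB_nonneg _ _) _)]
      refine le_of_eq ?_
      congr 1
      refine tsum_congr fun i => ?_
      exact lint_ex p _ (f := fun F => VB (bx (RR0 N i)) F ^ k * ind (Shell (2 ^ i * N) F))
        (fun F => mul_nonneg (pow_nonneg (VB_nonneg _ _) _) (ind_nonneg _))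
    · intro i
      exact (meas_f (boxE (3 * RR0 N i)) (fun F => VB (bx (RR0 N i)) F ^ k *
        ind (Shell (2 ^ i * N) F))).aemeasurable
  · exact meas_f (boxE (3 * (2 * N))) (fun F => VB (bx (2 * N)) F ^ k)

/-- the constant controlling the tails -/
theorem tail_const (k : ℕ) : ∃ B : ℝ, 0 < B ∧ ∀ i : ℕ,
    ((4:ℝ) ^ (i + 2)) ^ (2 * k) * 2 ^ i * (1/4) ^ (2 ^ i) ≤ B * (1/2) ^ i := by
  refine ⟨(16:ℝ) ^ (2 * k) * ((4 * k + 2).factorial : ℝ), by positivity, ?_⟩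
  intro i
  obtain ⟨x, hx⟩ : ∃ x : ℝ, x = (2:ℝ) ^ i := ⟨_, rfl⟩
  have hx1 : 1 ≤ x := by rw [hx]; exact one_le_pow₀ (by norm_num)
  have hx0 : 0 < x := by linarith
  have e1 : ((4:ℝ) ^ (i + 2)) ^ (2 * k) = 16 ^ (2 * k) * x ^ (4 * k) := by
    have : (4:ℝ) ^ (i + 2) = 16 * x ^ 2 := by
      rw [hx, pow_add, ← pow_mul, mul_comm i 2, pow_mul]; norm_num; ring
    rw [this, mul_pow, ← pow_mul]
    congr 2
    ring
  have e2 : ((1:ℝ)/2) ^ i = x⁻¹ := by rw [hx, one_div, inv_pow]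
  have e3 : ((1:ℝ)/4) ^ (2 ^ i) ≤ Real.exp (-x) := by
    apply Pool.Agent.W424.NC.quarter_pow_le
    rw [hx]
  rw [e1, e2, ← hx]
  have h1 := Real.pow_div_factorial_le_exp x hx0.le (4 * k + 2)
  have hf : (0:ℝ) < ((4 * k + 2).factorial : ℝ) := by exact_mod_cast Nat.factorial_pos _
  rw [div_le_iff₀ hf] at h1
  have h2 : x ^ (4 * k + 2) * Real.exp (-x) ≤ ((4 * k + 2).factorial : ℝ) := by
    calc x ^ (4 * k + 2) * Real.exp (-x) ≤ (Real.exp x * ((4 * k + 2).factorial : ℝ)) *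
          Real.exp (-x) := mul_le_mul_of_nonneg_right h1 (Real.exp_pos _).le
      _ = ((4 * k + 2).factorial : ℝ) * (Real.exp x * Real.exp (-x)) := by ring
      _ = _ := by rw [← Real.exp_add, add_neg_cancel, Real.exp_zero, mul_one]
  have h3 : x ^ (4 * k) * x * Real.exp (-x) ≤ ((4 * k + 2).factorial : ℝ) * x⁻¹ := by
    rw [← div_eq_mul_inv, le_div_iff₀ hx0]
    calc x ^ (4 * k) * x * Real.exp (-x) * x = x ^ (4 * k + 2) * Real.exp (-x) := by ring
      _ ≤ _ := h2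
  calc (16:ℝ) ^ (2 * k) * x ^ (4 * k) * x * (1/4) ^ (2 ^ i)
      ≤ (16:ℝ) ^ (2 * k) * x ^ (4 * k) * x * Real.exp (-x) :=
        mul_le_mul_of_nonneg_left e3 (by positivity)
    _ = (16:ℝ) ^ (2 * k) * (x ^ (4 * k) * x * Real.exp (-x)) := by ring
    _ ≤ (16:ℝ) ^ (2 * k) * (((4 * k + 2).factorial : ℝ) * x⁻¹) :=
        mul_le_mul_of_nonneg_left h3 (by positivity)
    _ = _ := by ring

/-- The abstract upper bound. -/
theorem tmom_le (k : ℕ) {A C1 C2 : ℝ} (hA : 0 ≤ A) (hC1 : 0 ≤ C1) (hC2 : 0 ≤ C2) :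
    ∃ C : ℝ, 0 < C ∧ ∀ (p : unitInterval) (N : ℕ) (l : ℝ), 1 ≤ N → 0 < l →
      (∀ R : ℕ, N ≤ R → ∀ S : Finset Edg, boxE (3 * R) ⊆ S →
        Ex (fun _ => (p:ℝ)) S (fun F => VB (bx R) F ^ k) ≤ C1 * (((R:ℝ) ^ 2 * l) ^ k * l)) →
      (∀ R : ℕ, N ≤ R → ∀ S : Finset Edg, boxE (3 * R) ⊆ S →
        Ex (fun _ => (p:ℝ)) S (fun F => VB (bx R) F ^ (2 * k)) ≤
          C2 * (((R:ℝ) ^ 2 * l) ^ (2 * k) * l)) →
      (∀ i : ℕ, ∀ S : Finset Edg, boxE (2 * (2 * (2^i * N))) ⊆ S →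
        Pr (fun _ => (p:ℝ)) S (Shell (2^i * N)) ≤ A * l * (1/4)^(2^i)) →
      tmom k p ≤ ENNReal.ofReal (C * (((N:ℝ) ^ 2 * l) ^ k * l)) := by
  obtain ⟨B, hB, hBi⟩ := tail_const k
  refine ⟨C1 * 4 ^ k + (C2 + A * B) + 1, by positivity, ?_⟩
  intro p N l hN hl h1 h2 h3
  have ok := okq p.2.1 p.2.2
  have hN0 : (0:ℝ) < N := by exact_mod_cast hN
  obtain ⟨D, hD⟩ : ∃ D : ℝ, D = ((N:ℝ) ^ 2 * l) ^ k := ⟨_, rfl⟩
  have hD0 : 0 < D := by rw [hD]; positivity
  rw [← hD]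
  -- the first term
  have t0 : Ex (fun _ => (p:ℝ)) (boxE (3 * (2 * N))) (fun F => VB (bx (2 * N)) F ^ k) ≤
      C1 * 4 ^ k * (D * l) := by
    refine (h1 (2 * N) (by omega) _ (Finset.Subset.refl _)).trans (le_of_eq ?_)
    have e : (((2 * N : ℕ):ℝ) ^ 2 * l) ^ k = 4 ^ k * D := by
      rw [hD, ← mul_pow]
      congr 1
      push_cast
      ring
    rw [e]; ring
  -- the other terms
  have ti : ∀ i : ℕ, Ex (fun _ => (p:ℝ)) (boxE (3 * RR0 N i))
        (fun F => VB (bx (RR0 N i)) F ^ k * ind (Shell (2 ^ i * N) F)) ≤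
      1 / 2 * ((C2 + A * B) * (D * l)) * (1 / 2) ^ i := by
    intro i
    obtain ⟨g, hg⟩ : ∃ g : ℝ, g = (4:ℝ) ^ (i + 2) := ⟨_, rfl⟩
    have hg0 : 0 < g := by rw [hg]; positivity
    obtain ⟨lam, hlam⟩ : ∃ lam : ℝ, lam = g ^ (2 * k) * 2 ^ i * D := ⟨_, rfl⟩
    have hlam0 : 0 < lam := by rw [hlam]; positivity
    have hR : ((RR0 N i : ℕ) : ℝ) ^ 2 = g * (N:ℝ) ^ 2 := by
      unfold RR0
      push_cast
      rw [hg, pow_add, show (4:ℝ) = 2 ^ 2 by norm_num, ← pow_mul, ← pow_mul]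
      ring
    have hpt : ∀ F : Finset Edg, F ⊆ boxE (3 * RR0 N i) →
        VB (bx (RR0 N i)) F ^ k * ind (Shell (2 ^ i * N) F) ≤
        (1 / 2 * lam⁻¹) * VB (bx (RR0 N i)) F ^ (2 * k) +
          (1 / 2 * lam) * ind (Shell (2 ^ i * N) F) := by
      intro F _
      obtain ⟨v, hv⟩ : ∃ v : ℝ, v = VB (bx (RR0 N i)) F ^ k := ⟨_, rfl⟩
      obtain ⟨a, ha⟩ : ∃ a : ℝ, a = ind (Shell (2 ^ i * N) F) := ⟨_, rfl⟩
      have haa : a * a = a := by rw [ha]; exact ind_sq _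
      have e : VB (bx (RR0 N i)) F ^ (2 * k) = v ^ 2 := by
        rw [hv, ← pow_mul, mul_comm]
      rw [e, ← hv, ← ha]
      have h5 : 0 ≤ (v - lam * a) ^ 2 := sq_nonneg _
      have h6 : 2 * lam * (v * a) ≤ v ^ 2 + lam ^ 2 * a := by
        have : (v - lam * a) ^ 2 = v ^ 2 - 2 * lam * (v * a) + lam ^ 2 * (a * a) := by ring
        rw [this, haa] at h5
        linarith
      have h7 : v * a = (1 / 2 * lam⁻¹) * (2 * lam * (v * a)) := by
        field_simp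
      rw [h7]
      calc (1 / 2 * lam⁻¹) * (2 * lam * (v * a)) ≤ (1 / 2 * lam⁻¹) * (v ^ 2 + lam ^ 2 * a) :=
            mul_le_mul_of_nonneg_left h6 (by positivity)
        _ = _ := by field_simp
    have h5 := Ex_mono ok hpt
    rw [Ex_add, Ex_mul_left, Ex_mul_left] at h5
    have h6 := h2 (RR0 N i) (by
      unfold RR0
      have : N ≤ 2 ^ i * N := Nat.le_mul_of_pos_left _ (by positivity)
      omega) (boxE (3 * RR0 N i)) (Finset.Subset.refl _)
    have h7 := h3 i (boxE (3 * RR0 N i)) (boxE_mono (by unfold RR0; omega))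
    have h6' : Ex (fun _ => (p:ℝ)) (boxE (3 * RR0 N i))
        (fun F => VB (bx (RR0 N i)) F ^ (2 * k)) ≤ C2 * (g ^ (2 * k) * D ^ 2 * l) := by
      refine h6.trans (le_of_eq ?_)
      rw [hR]
      have : (g * (N:ℝ) ^ 2 * l) ^ (2 * k) = g ^ (2 * k) * D ^ 2 := by
        rw [hD, ← pow_mul, mul_comm k 2, ← mul_pow]
        congr 1
        ring
      rw [this]
    refine h5.trans ?_
    have h8 : (1 / 2 * lam⁻¹) * Ex (fun _ => (p:ℝ)) (boxE (3 * RR0 N i))
        (fun F => VB (bx (RR0 N i)) F ^ (2 * k)) ≤ 1 / 2 * (C2 * (D * l)) * (1 / 2) ^ i := by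
      calc _ ≤ (1 / 2 * lam⁻¹) * (C2 * (g ^ (2 * k) * D ^ 2 * l)) :=
            mul_le_mul_of_nonneg_left h6' (by positivity)
        _ = _ := by
            rw [hlam, one_div, inv_pow]
            field_simp
    have h9 : (1 / 2 * lam) * Pr (fun _ => (p:ℝ)) (boxE (3 * RR0 N i)) (Shell (2^i * N)) ≤
        1 / 2 * (A * B * (D * l)) * (1 / 2) ^ i := by
      calc _ ≤ (1 / 2 * lam) * (A * l * (1/4)^(2^i)) :=
            mul_le_mul_of_nonneg_left h7 (by positivity)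
        _ = 1 / 2 * (A * (D * l)) * (g ^ (2 * k) * 2 ^ i * (1/4) ^ (2 ^ i)) := by
            rw [hlam]; ring
        _ ≤ 1 / 2 * (A * (D * l)) * (B * (1/2) ^ i) := by
            apply mul_le_mul_of_nonneg_left _ (by positivity)
            rw [hg]
            exact hBi i
        _ = _ := by ring
    have e10 : Pr (fun _ => (p:ℝ)) (boxE (3 * RR0 N i)) (Shell (2^i * N)) =
        Ex (fun _ => (p:ℝ)) (boxE (3 * RR0 N i)) (fun F => ind (Shell (2^i * N) F)) := rfl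
    rw [e10] at h9
    calc _ ≤ 1 / 2 * (C2 * (D * l)) * (1 / 2) ^ i + 1 / 2 * (A * B * (D * l)) * (1 / 2) ^ i :=
          add_le_add h8 h9
      _ = _ := by ring
  refine (tmom_le_sum hN k p).trans ?_
  have hK0 : 0 ≤ 1 / 2 * ((C2 + A * B) * (D * l)) := by positivity
  have hsum : ∑' i : ℕ, ENNReal.ofReal (Ex (fun _ => (p:ℝ)) (boxE (3 * RR0 N i))
        (fun F => VB (bx (RR0 N i)) F ^ k * ind (Shell (2 ^ i * N) F))) ≤
      ENNReal.ofReal ((C2 + A * B) * (D * l)) := by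
    calc _ ≤ ∑' i : ℕ, ENNReal.ofReal (1 / 2 * ((C2 + A * B) * (D * l)) * (1 / 2) ^ i) :=
          ENNReal.tsum_le_tsum fun i => ENNReal.ofReal_le_ofReal (ti i)
      _ = ENNReal.ofReal (∑' i : ℕ, 1 / 2 * ((C2 + A * B) * (D * l)) * (1 / 2) ^ i) := by
          rw [ENNReal.ofReal_tsum_of_nonneg]
          · intro i; positivity
          · exact summable_geometric_two.mul_left _
      _ = _ := by
          rw [tsum_mul_left, tsum_geometric_two]
          congr 1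
          ring
  calc _ ≤ ENNReal.ofReal (C1 * 4 ^ k * (D * l)) + ENNReal.ofReal ((C2 + A * B) * (D * l)) :=
        add_le_add (ENNReal.ofReal_le_ofReal t0) hsum
    _ = ENNReal.ofReal (C1 * 4 ^ k * (D * l) + (C2 + A * B) * (D * l)) := by
        rw [ENNReal.ofReal_add (by positivity) (by positivity)]
    _ ≤ _ := by
        apply ENNReal.ofReal_le_ofReal
        have : 0 < D * l := by positivity
        linarith

end Pool.Agent.U167.GE
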