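import Pool.Agent.U167.GE.Up

/-!
Sharp upper bounds for the truncated moments on both sides of the critical point.
-/

set_option autoImplicit false
set_option maxHeartbeats 1000000

namespace Pool.Agent.U167.GE

open Finset H974 Pool.Agent.H160R2.CV MeasureTheory Pool.Agent.W424.NC

/-- conversion of the scales to powers of the distance to the critical point -/
theorem conv_up (k : ℕ) {E c0 : ℝ} (hE : 1 ≤ E) (hc0 : 0 < c0) : ∃ C : ℝ, 0 < C ∧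
    ∀ (s : ℝ) (N L : ℕ), 0 < s → (N:ℝ) * s ^ (4/3 : ℝ) ≤ E → c0 * s ^ (-(4/3) : ℝ) ≤ L →
      ((N:ℝ) ^ 2 * (L:ℝ) ^ (-(5/48) : ℝ)) ^ k * (L:ℝ) ^ (-(5/48) : ℝ) ≤
        C * s ^ (-((91 * (k:ℝ) - 5) / 36) : ℝ) := by
  obtain ⟨c1, hc1⟩ : ∃ c1 : ℝ, c1 = c0 ^ (-(5/48) : ℝ) := ⟨_, rfl⟩
  have hc10 : 0 < c1 := by rw [hc1]; exact Real.rpow_pos_of_pos hc0 _
  refine ⟨(E ^ 2 * c1) ^ k * c1, by positivity, ?_⟩
  intro s N L hs hN hL
  have hs43 : 0 < s ^ (4/3 : ℝ) := Real.rpow_pos_of_pos hs _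
  have hinv : s ^ (-(4/3) : ℝ) * s ^ (4/3 : ℝ) = 1 := by
    rw [← Real.rpow_add hs]; norm_num
  have hsm : 0 < s ^ (-(4/3) : ℝ) := Real.rpow_pos_of_pos hs _
  have hN2 : (N:ℝ) ≤ E * s ^ (-(4/3) : ℝ) := by
    calc (N:ℝ) = ((N:ℝ) * s ^ (4/3 : ℝ)) * s ^ (-(4/3) : ℝ) := by
          rw [mul_assoc, mul_comm (s ^ (4/3 : ℝ)), hinv, mul_one]
      _ ≤ _ := mul_le_mul_of_nonneg_right hN hsm.le
  have hL2 : (L:ℝ) ^ (-(5/48) : ℝ) ≤ c1 * s ^ (5/36 : ℝ) := by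
    calc (L:ℝ) ^ (-(5/48) : ℝ) ≤ (c0 * s ^ (-(4/3) : ℝ)) ^ (-(5/48) : ℝ) :=
          Real.rpow_le_rpow_of_nonpos (by positivity) hL (by norm_num)
      _ = c1 * s ^ (5/36 : ℝ) := by
          rw [Real.mul_rpow hc0.le hsm.le, ← Real.rpow_mul hs.le, hc1]
          norm_num
  have hl0 : 0 ≤ (L:ℝ) ^ (-(5/48) : ℝ) := Real.rpow_nonneg (Nat.cast_nonneg _) _
  have h36 : 0 < s ^ (5/36 : ℝ) := Real.rpow_pos_of_pos hs _
  have h1 : (N:ℝ) ^ 2 * (L:ℝ) ^ (-(5/48) : ℝ) ≤ (E ^ 2 * c1) * s ^ (-(91/36) : ℝ) := by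
    calc (N:ℝ) ^ 2 * (L:ℝ) ^ (-(5/48) : ℝ)
        ≤ (E * s ^ (-(4/3) : ℝ)) ^ 2 * (c1 * s ^ (5/36 : ℝ)) :=
          mul_le_mul (pow_le_pow_left₀ (Nat.cast_nonneg _) hN2 2) hL2 hl0 (by positivity)
      _ = (E ^ 2 * c1) * (s ^ (-(4/3) : ℝ) * s ^ (-(4/3) : ℝ) * s ^ (5/36 : ℝ)) := by ring
      _ = _ := by
          rw [← Real.rpow_add hs, ← Real.rpow_add hs]
          norm_num
  calc ((N:ℝ) ^ 2 * (L:ℝ) ^ (-(5/48) : ℝ)) ^ k * (L:ℝ) ^ (-(5/48) : ℝ)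
      ≤ ((E ^ 2 * c1) * s ^ (-(91/36) : ℝ)) ^ k * (c1 * s ^ (5/36 : ℝ)) :=
        mul_le_mul (pow_le_pow_left₀ (by positivity) h1 k) hL2 hl0 (by positivity)
    _ = (E ^ 2 * c1) ^ k * c1 * ((s ^ (-(91/36) : ℝ)) ^ k * s ^ (5/36 : ℝ)) := by
        rw [mul_pow]; ring
    _ = _ := by
        rw [← Real.rpow_natCast (s ^ (-(91/36) : ℝ)) k, ← Real.rpow_mul hs.le,
          ← Real.rpow_add hs]
        congr 2
        ring

/-- Truncated moments above the critical point: upper bound. -/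
theorem tmom_sup (k : ℕ) (hk : 1 ≤ k) : ∃ C : ℝ, 0 < C ∧ ∀ p : unitInterval, 1/2 < (p:ℝ) →
    tmom k p ≤ ENNReal.ofReal (C * ((p:ℝ) - 1/2) ^ (-((91 * (k:ℝ) - 5) / 36) : ℝ)) := by
  obtain ⟨m, hm⟩ : ∃ m, k = m + 1 := ⟨k - 1, by omega⟩
  obtain ⟨m', hm'⟩ : ∃ m', 2 * k = m' + 1 := ⟨2 * k - 1, by omega⟩
  obtain ⟨E, hE, hfar⟩ := farN
  obtain ⟨κ, b, hκ, hb, hst⟩ := armS
  obtain ⟨cc, Cc, hcc, hCc, harm⟩ := Pool.Agent.W424.NC.arm_crit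
  obtain ⟨A, hAdef⟩ : ∃ A : ℝ, A = 3 * Cc + 1 := ⟨_, rfl⟩
  have hA : 0 ≤ A := by rw [hAdef]; linarith
  obtain ⟨C1, hC1, hmom1⟩ := mom_bound hA m
  obtain ⟨C2, hC2, hmom2⟩ := mom_bound hA m'
  rw [← hm] at hmom1
  rw [← hm'] at hmom2
  obtain ⟨C3, hC3, hmain⟩ := tmom_le k (A := 4 * A) (C1 := C1) (C2 := C2) (by linarith)
    (by linarith) (by linarith)
  obtain ⟨c0, hc0def⟩ : ∃ c0 : ℝ, c0 = min 1 (b ^ (4/3 : ℝ) / 2) := ⟨_, rfl⟩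
  have hb43 : 0 < b ^ (4/3 : ℝ) := Real.rpow_pos_of_pos hb _
  have hc0 : 0 < c0 := by rw [hc0def]; exact lt_min one_pos (by linarith)
  obtain ⟨C4, hC4, hconv⟩ := conv_up k hE hc0
  refine ⟨C3 * C4, by positivity, ?_⟩
  intro p hp
  have hp1 : (p:ℝ) ≤ 1 := p.2.2
  have hp0 : (0:ℝ) ≤ p := p.2.1
  obtain ⟨s, hs⟩ : ∃ s : ℝ, s = (p:ℝ) - 1/2 := ⟨_, rfl⟩
  have hs0 : 0 < s := by rw [hs]; linarith
  obtain ⟨N, hN2, hNE, hN1, heps⟩ := hfar (1 - (p:ℝ)) (by linarith) (by linarith)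
  have es : 1/2 - (1 - (p:ℝ)) = s := by rw [hs]; ring
  rw [es] at hNE hN1
  rw [sub_sub_cancel] at heps
  rw [← hs]
  have hs43 : 0 < s ^ (4/3 : ℝ) := Real.rpow_pos_of_pos hs0 _
  have hsm : 0 < s ^ (-(4/3) : ℝ) := Real.rpow_pos_of_pos hs0 _
  have hinv : s ^ (-(4/3) : ℝ) * s ^ (4/3 : ℝ) = 1 := by
    rw [← Real.rpow_add hs0]; norm_num
  obtain ⟨x, hx⟩ : ∃ x : ℝ, x = (b / s) ^ (4/3 : ℝ) := ⟨_, rfl⟩
  have hx0 : 0 < x := by rw [hx]; positivity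
  have hxe : x = b ^ (4/3 : ℝ) * s ^ (-(4/3) : ℝ) := by
    rw [hx, Real.div_rpow hb.le hs0.le, Real.rpow_neg hs0.le, div_eq_mul_inv]
  obtain ⟨L, hL⟩ : ∃ L : ℕ, L = min N (max 1 ⌊x⌋₊) := ⟨_, rfl⟩
  have hL1 : 1 ≤ L := by rw [hL]; exact le_min (by omega) (le_max_left _ _)
  have hLN : L ≤ N := by rw [hL]; exact min_le_left _ _
  have hL0 : (0:ℝ) < L := by exact_mod_cast hL1
  have hLlow : c0 * s ^ (-(4/3) : ℝ) ≤ L := by
    have a1 : s ^ (-(4/3) : ℝ) ≤ N := by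
      calc s ^ (-(4/3) : ℝ) = 1 * s ^ (-(4/3) : ℝ) := (one_mul _).symm
        _ ≤ ((N:ℝ) * s ^ (4/3 : ℝ)) * s ^ (-(4/3) : ℝ) :=
            mul_le_mul_of_nonneg_right hN1 hsm.le
        _ = N := by rw [mul_assoc, mul_comm (s ^ (4/3 : ℝ)), hinv, mul_one]
    have a2 : x / 2 ≤ ((max 1 ⌊x⌋₊ : ℕ) : ℝ) := by
      have k1 := Nat.lt_floor_add_one x
      have k2 : ((1:ℕ):ℝ) ≤ ((max 1 ⌊x⌋₊ : ℕ) : ℝ) := by exact_mod_cast le_max_left _ _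
      have k3 : ((⌊x⌋₊ : ℕ) : ℝ) ≤ ((max 1 ⌊x⌋₊ : ℕ) : ℝ) := by exact_mod_cast le_max_right _ _
      push_cast at k2
      push_cast at k3 ⊢
      linarith
    have a3 : ((L:ℕ):ℝ) = min (N:ℝ) ((max 1 ⌊x⌋₊ : ℕ) : ℝ) := by
      rw [hL]
      push_cast
      rfl
    rw [a3]
    apply le_min
    · calc c0 * s ^ (-(4/3) : ℝ) ≤ 1 * s ^ (-(4/3) : ℝ) :=
            mul_le_mul_of_nonneg_right (by rw [hc0def]; exact min_le_left _ _) hsm.le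
        _ ≤ N := by rw [one_mul]; exact a1
    · calc c0 * s ^ (-(4/3) : ℝ) ≤ (b ^ (4/3 : ℝ) / 2) * s ^ (-(4/3) : ℝ) :=
            mul_le_mul_of_nonneg_right (by rw [hc0def]; exact min_le_right _ _) hsm.le
        _ = x / 2 := by rw [hxe]; ring
        _ ≤ _ := a2
  have harmp : ∀ r : ℕ, 1 ≤ r → r ≤ L → arm p r ≤ A * (r:ℝ) ^ (-(5/48) : ℝ) := by
    intro r hr1 hrL
    have hr0 : (0:ℝ) < r := by exact_mod_cast hr1
    have hrp : 0 < (r:ℝ) ^ (-(5/48) : ℝ) := Real.rpow_pos_of_pos hr0 _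
    rcases Nat.eq_or_lt_of_le hr1 with h | h
    · rw [← h]
      have := arm_le_one hp0 hp1 1
      simp only [Nat.cast_one, Real.one_rpow, mul_one]
      rw [hAdef]; linarith
    · have h2 : r ≤ ⌊x⌋₊ := by
        have : r ≤ max 1 ⌊x⌋₊ := hrL.trans (by rw [hL]; exact min_le_right _ _)
        rcases le_max_iff.1 this with h3 | h3
        · omega
        · exact h3
      have h3 : (r:ℝ) ≤ x := (Nat.le_floor_iff hx0.le).1 h2
      have h4 : s ≤ b * (r:ℝ) ^ (-(3/4 : ℝ)) := by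
        have h5 : (r:ℝ) ^ (3/4 : ℝ) ≤ b / s := by
          calc (r:ℝ) ^ (3/4 : ℝ) ≤ x ^ (3/4 : ℝ) := Real.rpow_le_rpow hr0.le h3 (by norm_num)
            _ = b / s := by
                rw [hx, ← Real.rpow_mul (by positivity)]
                norm_num
        rw [le_div_iff₀ hs0] at h5
        rw [Real.rpow_neg hr0.le, ← div_eq_mul_inv, le_div_iff₀ (by positivity)]
        linarith
      have h5 := (hst r hr1 p (by rw [← hs, abs_of_pos hs0]; exact h4)).2.1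
      have h6 := (harm r hr1).2
      rw [hAdef]
      nlinarith
  obtain ⟨l, hl⟩ : ∃ l : ℝ, l = (L:ℝ) ^ (-(5/48) : ℝ) := ⟨_, rfl⟩
  have hl0 : 0 < l := by rw [hl]; exact Real.rpow_pos_of_pos hL0 _
  have hres := hmain p N l (by omega) hl0
    (fun R hR S hS => by
      rw [hl]
      exact hmom1 p hp.le hp1 L hL1 harmp R (hLN.trans hR) S hS)
    (fun R hR S hS => by
      rw [hl]
      exact hmom2 p hp.le hp1 L hL1 harmp R (hLN.trans hR) S hS)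
    (fun i S hS => by
      refine (shell_sup hp0 hp1 hN2 heps i hS).trans ?_
      have h7 : arm p N ≤ A * l := by
        rw [hl]
        exact (arm_anti hp0 hp1 hLN).trans (harmp L hL1 le_rfl)
      have h8 : (0:ℝ) ≤ (1/4)^(2^i) := by positivity
      calc 4 * (arm p N * (1/4)^(2^i)) ≤ 4 * ((A * l) * (1/4)^(2^i)) :=
            mul_le_mul_of_nonneg_left (mul_le_mul_of_nonneg_right h7 h8) (by norm_num)
        _ = _ := by ring)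
  refine hres.trans (ENNReal.ofReal_le_ofReal ?_)
  rw [hl, mul_assoc C3]
  exact mul_le_mul_of_nonneg_left (hconv s N L hs0 hNE hLlow) hC3.le

/-- Truncated moments below the critical point: upper bound. -/
theorem tmom_sub (k : ℕ) (hk : 1 ≤ k) : ∃ C : ℝ, 0 < C ∧ ∀ p : unitInterval, (p:ℝ) < 1/2 →
    tmom k p ≤ ENNReal.ofReal (C * (1/2 - (p:ℝ)) ^ (-((91 * (k:ℝ) - 5) / 36) : ℝ)) := by
  obtain ⟨m, hm⟩ : ∃ m, k = m + 1 := ⟨k - 1, by omega⟩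
  obtain ⟨m', hm'⟩ : ∃ m', 2 * k = m' + 1 := ⟨2 * k - 1, by omega⟩
  obtain ⟨E, hE, hfar⟩ := farN
  obtain ⟨cc, Cc, hcc, hCc, harm⟩ := Pool.Agent.W424.NC.arm_crit
  obtain ⟨C1, hC1, hmom1⟩ := mom_bound hCc.le m
  obtain ⟨C2, hC2, hmom2⟩ := mom_bound hCc.le m'
  rw [← hm] at hmom1
  rw [← hm'] at hmom2
  obtain ⟨C3, hC3, hmain⟩ := tmom_le k (A := 4 * Cc) (C1 := C1) (C2 := C2) (by linarith)
    (by linarith) (by linarith)
  obtain ⟨C4, hC4, hconv⟩ := conv_up k hE (c0 := 1) one_pos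
  refine ⟨C3 * C4, by positivity, ?_⟩
  intro p hp
  have hp0 : (0:ℝ) ≤ p := p.2.1
  have hp1 : (p:ℝ) ≤ 1 := p.2.2
  obtain ⟨N, hN2, hNE, hN1, heps⟩ := hfar p hp0 hp
  obtain ⟨s, hs⟩ : ∃ s : ℝ, s = 1/2 - (p:ℝ) := ⟨_, rfl⟩
  have hs0 : 0 < s := by rw [hs]; linarith
  rw [← hs] at hNE hN1 ⊢
  have hsm : 0 < s ^ (-(4/3) : ℝ) := Real.rpow_pos_of_pos hs0 _
  have hinv : s ^ (-(4/3) : ℝ) * s ^ (4/3 : ℝ) = 1 := by
    rw [← Real.rpow_add hs0]; norm_num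
  have hNlow : 1 * s ^ (-(4/3) : ℝ) ≤ N := by
    calc 1 * s ^ (-(4/3) : ℝ) ≤ ((N:ℝ) * s ^ (4/3 : ℝ)) * s ^ (-(4/3) : ℝ) :=
          mul_le_mul_of_nonneg_right hN1 hsm.le
      _ = N := by rw [mul_assoc, mul_comm (s ^ (4/3 : ℝ)), hinv, mul_one]
  have hinc : ∀ (j : ℕ) (R : ℕ) (S : Finset Edg), Incr S (fun F => VB (bx R) F ^ j) := by
    intro j R S F G hFG _
    apply pow_le_pow_left₀ (VB_nonneg _ _)
    unfold VB
    apply Finset.sum_le_sum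
    intro x _
    apply ind_mono
    intro h
    exact h.mono (by exact_mod_cast hFG)
  have hmono : ∀ (j : ℕ) (R : ℕ) (S : Finset Edg), Ex (fun _ => (p:ℝ)) S
      (fun F => VB (bx R) F ^ j) ≤ Ex (fun _ => (1/2:ℝ)) S (fun F => VB (bx R) F ^ j) :=
    fun j R S => Ex_mono_param (okq hp0 hp1) (okq (by norm_num) (by norm_num)) (fun _ => hp.le)
      (hinc j R S)
  have hN0 : (0:ℝ) < N := by exact_mod_cast (by omega : 0 < N)
  obtain ⟨l, hl⟩ : ∃ l : ℝ, l = (N:ℝ) ^ (-(5/48) : ℝ) := ⟨_, rfl⟩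
  have hl0 : 0 < l := by rw [hl]; exact Real.rpow_pos_of_pos hN0 _
  have hres := hmain p N l (by omega) hl0
    (fun R hR S hS => by
      rw [hl]
      exact (hmono k R S).trans (hmom1 (1/2) le_rfl (by norm_num) N (by omega)
        (fun r hr _ => (harm r hr).2) R hR S hS))
    (fun R hR S hS => by
      rw [hl]
      exact (hmono (2 * k) R S).trans (hmom2 (1/2) le_rfl (by norm_num) N (by omega)
        (fun r hr _ => (harm r hr).2) R hR S hS))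
    (fun i S hS => by
      refine (shell_sub hp0 hp1 hN2 heps i hS).trans ?_
      have h7 : arm p N ≤ Cc * l := by
        rw [hl]
        exact (arm_mono_param hp0 hp.le (by norm_num) N).trans (harm N (by omega)).2
      have h8 : (0:ℝ) ≤ (1/4)^(2^i) := by positivity
      calc 4 * (arm p N * (1/4)^(2^i)) ≤ 4 * ((Cc * l) * (1/4)^(2^i)) :=
            mul_le_mul_of_nonneg_left (mul_le_mul_of_nonneg_right h7 h8) (by norm_num)
        _ = _ := by ring)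
  refine hres.trans (ENNReal.ofReal_le_ofReal ?_)
  rw [hl, mul_assoc C3]
  exact mul_le_mul_of_nonneg_left (hconv s N N hs0 hNE hNlow) hC3.le

end Pool.Agent.U167.GE
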